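import Pool.Agent.MP_2724f6_pr.Defs

/-!
The convex bodies `{∑ xᵢ⁴ ≤ α, ∑ xᵢ² ≤ β}` and the uniform probability measures on them.
-/

namespace Pool.Agent.MP_2724f6_pr

open MeasureTheory

variable {n : ℕ}

/-- `∑ xᵢ⁴`. -/
def V (x : Fin n → ℝ) : ℝ := ∑ i, (x i) ^ 4

/-- `∑ xᵢ²`. -/
def T (x : Fin n → ℝ) : ℝ := ∑ i, (x i) ^ 2

lemma V_cont : Continuous (V : (Fin n → ℝ) → ℝ) := by unfold V; fun_prop
lemma T_cont : Continuous (T : (Fin n → ℝ) → ℝ) := by unfold T; fun_prop
lemma V_nonneg (x : Fin n → ℝ) : 0 ≤ V x := Finset.sum_nonneg (fun i _ => by positivity)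
lemma T_nonneg (x : Fin n → ℝ) : 0 ≤ T x := Finset.sum_nonneg (fun i _ => by positivity)

/-- The body `{V ≤ α, T ≤ β}`. -/
def K (n : ℕ) (α β : ℝ) : Set (Fin n → ℝ) := {x | V x ≤ α ∧ T x ≤ β}

lemma K_closed (α β : ℝ) : IsClosed (K n α β) :=
  (isClosed_le V_cont continuous_const).inter (isClosed_le T_cont continuous_const)

lemma K_meas (α β : ℝ) : MeasurableSet (K n α β) := (K_closed α β).measurableSet

lemma coord_le {α β : ℝ} {x : Fin n → ℝ} (hx : x ∈ K n α β) (i : Fin n) :
    |x i| ≤ Real.sqrt β := by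
  apply Real.abs_le_sqrt
  refine le_trans ?_ hx.2
  exact Finset.single_le_sum (f := fun i => (x i) ^ 2) (fun i _ => by positivity)
    (Finset.mem_univ i)

lemma K_compact (α β : ℝ) : IsCompact (K n α β) := by
  apply IsCompact.of_isClosed_subset
    (isCompact_univ_pi (fun _ : Fin n => isCompact_Icc (a := -Real.sqrt β) (b := Real.sqrt β)))
    (K_closed α β)
  intro x hx i _
  have := coord_le hx i
  rw [abs_le] at this
  exact this

lemma K_ne_top (α β : ℝ) : volume (K n α β) ≠ ⊤ := (K_compact α β).measure_ne_top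

lemma K_ne_zero {α β : ℝ} (hα : 0 < α) (hβ : 0 < β) : volume (K n α β) ≠ 0 := by
  have h1 : IsOpen {x : Fin n → ℝ | V x < α ∧ T x < β} :=
    (isOpen_lt V_cont continuous_const).inter (isOpen_lt T_cont continuous_const)
  have h2 : (0 : Fin n → ℝ) ∈ {x : Fin n → ℝ | V x < α ∧ T x < β} := by
    simp [V, T, hα, hβ]
  have h3 := h1.measure_pos volume ⟨0, h2⟩
  have h4 : {x : Fin n → ℝ | V x < α ∧ T x < β} ⊆ K n α β := fun x hx => ⟨hx.1.le, hx.2.le⟩
  exact (h3.trans_le (measure_mono h4)).ne'

lemma V_convex {x y : Fin n → ℝ} {a b : ℝ} (ha : 0 ≤ a) (hb : 0 ≤ b) (hab : a + b = 1) :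
    V (a • x + b • y) ≤ a * V x + b * V y := by
  unfold V
  rw [Finset.mul_sum, Finset.mul_sum, ← Finset.sum_add_distrib]
  refine Finset.sum_le_sum (fun i _ => ?_)
  have h := (Even.convexOn_pow (n := 4) (by decide)).2 (Set.mem_univ (x i)) (Set.mem_univ (y i))
    ha hb hab
  simpa using h

lemma T_convex {x y : Fin n → ℝ} {a b : ℝ} (ha : 0 ≤ a) (hb : 0 ≤ b) (hab : a + b = 1) :
    T (a • x + b • y) ≤ a * T x + b * T y := by
  unfold T
  rw [Finset.mul_sum, Finset.mul_sum, ← Finset.sum_add_distrib]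
  refine Finset.sum_le_sum (fun i _ => ?_)
  have h := (Even.convexOn_pow (n := 2) (by decide)).2 (Set.mem_univ (x i)) (Set.mem_univ (y i))
    ha hb hab
  simpa using h

lemma K_convex {α β : ℝ} {x y : Fin n → ℝ} (hx : x ∈ K n α β) (hy : y ∈ K n α β) {a b : ℝ}
    (ha : 0 ≤ a) (hb : 0 ≤ b) (hab : a + b = 1) : a • x + b • y ∈ K n α β := by
  constructor
  · refine (V_convex ha hb hab).trans ?_
    calc a * V x + b * V y ≤ a * α + b * α := by
          gcongr
          · exact hx.1
          · exact hy.1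
      _ = α := by rw [← add_mul, hab, one_mul]
  · refine (T_convex ha hb hab).trans ?_
    calc a * T x + b * T y ≤ a * β + b * β := by
          gcongr
          · exact hx.2
          · exact hy.2
      _ = β := by rw [← add_mul, hab, one_mul]

/-- The uniform probability measure on `K n α β`. -/
noncomputable def U (n : ℕ) (α β : ℝ) : Measure (Fin n → ℝ) :=
  ProbabilityTheory.cond volume (K n α β)

lemma U_eq (α β : ℝ) : U n α β = (volume (K n α β))⁻¹ • volume.restrict (K n α β) := rfl

lemma U_prob {α β : ℝ} (hα : 0 < α) (hβ : 0 < β) : IsProbabilityMeasure (U n α β) :=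
  ProbabilityTheory.cond_isProbabilityMeasure_of_finite (K_ne_zero hα hβ) (K_ne_top α β)

lemma U_ae (α β : ℝ) : ∀ᵐ x ∂(U n α β), x ∈ K n α β := by
  rw [U_eq]
  exact Measure.ae_smul_measure (ae_restrict_mem (K_meas α β)) _

lemma U_integrable {α β : ℝ} (hα : 0 < α) (hβ : 0 < β) {f : (Fin n → ℝ) → ℝ}
    (hf : Continuous f) : Integrable f (U n α β) := by
  rw [U_eq]
  exact (hf.continuousOn.integrableOn_compact (K_compact α β)).smul_measure
    (ENNReal.inv_ne_top.mpr (K_ne_zero hα hβ))

lemma U_integral (α β : ℝ) (f : (Fin n → ℝ) → ℝ) :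
    ∫ x, f x ∂(U n α β) = (volume (K n α β)).toReal⁻¹ * ∫ x in K n α β, f x := by
  rw [U_eq, integral_smul_measure, ENNReal.toReal_inv, smul_eq_mul]

/-! ### Log-concavity -/

lemma U_logConcave {α β : ℝ} (hα : 0 < α) (hβ : 0 < β) : LogConcave (U n α β) := by
  classical
  set L : ℝ := Real.log (volume (K n α β)).toReal with hL
  have hvpos : 0 < (volume (K n α β)).toReal :=
    ENNReal.toReal_pos (K_ne_zero hα hβ) (K_ne_top α β)
  refine ⟨fun x => if x ∈ K n α β then (L : EReal) else ⊤, ?_, ?_, ?_⟩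
  · intro x
    dsimp only
    split_ifs
    · exact EReal.coe_ne_bot L
    · exact top_ne_bot
  · intro x y a b ha hb hab
    by_cases hx : x ∈ K n α β
    · by_cases hy : y ∈ K n α β
      · have hxy := K_convex hx hy ha.le hb.le hab
        simp only [hx, hy, hxy, if_true]
        rw [← EReal.coe_mul, ← EReal.coe_mul, ← EReal.coe_add]
        apply EReal.coe_le_coe
        rw [← add_mul, hab, one_mul]
      · simp only [hx, hy, if_true, if_false]
        rw [EReal.mul_top_of_pos (by exact_mod_cast hb), ← EReal.coe_mul, EReal.coe_add_top]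
        exact le_top
    · simp only [hx, if_false]
      rw [EReal.mul_top_of_pos (by exact_mod_cast ha)]
      by_cases hy : y ∈ K n α β
      · simp only [hy, if_true]
        rw [← EReal.coe_mul, EReal.top_add_coe]
        exact le_top
      · simp only [hy, if_false]
        rw [EReal.mul_top_of_pos (by exact_mod_cast hb), EReal.top_add_top]
        exact le_top
  · rw [U_eq]
    have h1 : (fun x => EReal.exp (-(if x ∈ K n α β then (L : EReal) else ⊤))) =
        (K n α β).indicator (fun _ => (volume (K n α β))⁻¹) := by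
      ext x
      by_cases hx : x ∈ K n α β
      · simp only [hx, if_true, Set.indicator_of_mem]
        rw [← EReal.coe_neg, EReal.exp_coe, Real.exp_neg, hL, Real.exp_log hvpos,
          ENNReal.ofReal_inv_of_pos hvpos, ENNReal.ofReal_toReal (K_ne_top α β)]
      · simp only [hx, if_false, not_false_eq_true, Set.indicator_of_notMem, EReal.neg_top,
          EReal.exp_bot]
    rw [h1, withDensity_indicator (K_meas α β), withDensity_const]

/-! ### Symmetry -/

/-- A signed coordinate permutation. -/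
def act (ε : Fin n → ℝ) (π : Equiv.Perm (Fin n)) (x : Fin n → ℝ) : Fin n → ℝ :=
  fun i => ε i * x (π i)

lemma act_cont (ε : Fin n → ℝ) (π : Equiv.Perm (Fin n)) : Continuous (act ε π) := by
  unfold act
  fun_prop

lemma V_act {ε : Fin n → ℝ} (π : Equiv.Perm (Fin n)) (hε : ∀ i, ε i = 1 ∨ ε i = -1)
    (x : Fin n → ℝ) : V (act ε π x) = V x := by
  unfold V act
  rw [← Equiv.sum_comp π (fun i => (x i) ^ 4)]
  refine Finset.sum_congr rfl (fun i _ => ?_)
  rcases hε i with h | h <;> rw [h] <;> ring

lemma T_act {ε : Fin n → ℝ} (π : Equiv.Perm (Fin n)) (hε : ∀ i, ε i = 1 ∨ ε i = -1)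
    (x : Fin n → ℝ) : T (act ε π x) = T x := by
  unfold T act
  rw [← Equiv.sum_comp π (fun i => (x i) ^ 2)]
  refine Finset.sum_congr rfl (fun i _ => ?_)
  rcases hε i with h | h <;> rw [h] <;> ring

lemma act_volume {ε : Fin n → ℝ} (π : Equiv.Perm (Fin n)) (hε : ∀ i, ε i = 1 ∨ ε i = -1) :
    MeasurePreserving (act ε π) (volume : Measure (Fin n → ℝ)) volume := by
  have h1 : MeasurePreserving (fun (x : Fin n → ℝ) i => x (π i)) volume volume := by
    have := volume_measurePreserving_piCongrLeft (fun _ : Fin n => ℝ) π.symm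
    convert this using 1
    ext x i
    have h2 := MeasurableEquiv.piCongrLeft_apply_apply (β := fun _ : Fin n => ℝ) π.symm x (π i)
    simpa using h2.symm
  have h2 : MeasurePreserving (fun (x : Fin n → ℝ) i => ε i * x i) volume volume := by
    apply measurePreserving_pi (fun _ : Fin n => (volume : Measure ℝ)) (fun _ => volume)
      (f := fun i (y : ℝ) => ε i * y)
    intro i
    rcases hε i with h | h
    · have h3 : (fun y : ℝ => ε i * y) = id := by
        ext y
        simp [h]
      rw [h3]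
      exact MeasurePreserving.id volume
    · have h3 : (fun y : ℝ => ε i * y) = Neg.neg := by
        ext y
        simp [h]
      rw [h3]
      exact Measure.measurePreserving_neg volume
  exact h2.comp h1

lemma U_invariant (α β : ℝ) : HypInvariant (U n α β) := by
  intro ε π hε
  have h1 := act_volume π hε
  have hpre : act ε π ⁻¹' (K n α β) = K n α β := by
    ext x
    simp only [K, Set.mem_preimage, Set.mem_ofPred_eq, V_act π hε, T_act π hε]
  ext s hs
  change (Measure.map (act ε π) (U n α β)) s = (U n α β) s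
  rw [Measure.map_apply (act_cont ε π).measurable hs]
  unfold U
  rw [ProbabilityTheory.cond_apply (K_meas α β), ProbabilityTheory.cond_apply (K_meas α β)]
  congr 1
  nth_rewrite 1 [← hpre]
  rw [← Set.preimage_inter]
  exact h1.measure_preimage ((K_meas α β).inter hs).nullMeasurableSet

/-! ### Scaling -/

lemma V_smul (c : ℝ) (x : Fin n → ℝ) : V (c • x) = c ^ 4 * V x := by
  unfold V
  rw [Finset.mul_sum]
  refine Finset.sum_congr rfl (fun i _ => ?_)
  simp only [Pi.smul_apply, smul_eq_mul]
  ring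

lemma T_smul (c : ℝ) (x : Fin n → ℝ) : T (c • x) = c ^ 2 * T x := by
  unfold T
  rw [Finset.mul_sum]
  refine Finset.sum_congr rfl (fun i _ => ?_)
  simp only [Pi.smul_apply, smul_eq_mul]
  ring

lemma U_map_smul {α β : ℝ} {c : ℝ} (hc : 0 < c) :
    (U n α β).map (fun x => c • x) = U n (c ^ 4 * α) (c ^ 2 * β) := by
  have hpre : (fun x : Fin n → ℝ => c • x) ⁻¹' (K n (c ^ 4 * α) (c ^ 2 * β)) = K n α β := by
    ext x
    simp only [K, Set.mem_preimage, Set.mem_ofPred_eq, V_smul, T_smul]
    rw [mul_le_mul_iff_right₀ (by positivity), mul_le_mul_iff_right₀ (by positivity)]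
  have hm : Measurable (fun x : Fin n → ℝ => c • x) := measurable_const_smul c
  have hpos : (0 : ℝ) < |(c ^ Module.finrank ℝ (Fin n → ℝ))⁻¹| := by positivity
  ext s hs
  rw [Measure.map_apply hm hs]
  unfold U
  rw [ProbabilityTheory.cond_apply (K_meas α β), ProbabilityTheory.cond_apply (K_meas _ _)]
  rw [← hpre, ← Set.preimage_inter, Measure.addHaar_preimage_smul volume hc.ne',
    Measure.addHaar_preimage_smul volume hc.ne']
  rw [ENNReal.mul_inv (Or.inl (by simpa using hpos)) (Or.inl ENNReal.ofReal_ne_top)]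
  rw [mul_mul_mul_comm, ENNReal.inv_mul_cancel (by simpa using hpos) ENNReal.ofReal_ne_top,
    one_mul]

end Pool.Agent.MP_2724f6_pr
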