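import Pool.Agent.MP_2724f6_pr.Body

/-!
Concentration: for suitable `α, β` of order `n`, both `∑ xᵢ⁴` and `∑ xᵢ²` are close to `α`, `β`
under the uniform measure on the body `K n α β`.
-/

namespace Pool.Agent.MP_2724f6_pr

open MeasureTheory ProbabilityTheory

/-- The weight. -/
noncomputable def w (x : ℝ) : ℝ := Real.exp (-(x ^ 4 + x ^ 2))

lemma w_pos (x : ℝ) : 0 < w x := Real.exp_pos _

lemma w_cont : Continuous w := by unfold w; fun_prop

/-- Domination: `x^8 w(x) ≤ 384 e^{-x²/2}`. -/
lemma pow8_w (x : ℝ) : x ^ 8 * w x ≤ 384 * Real.exp (-(1 / 2) * x ^ 2) := by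
  have h1 : (x ^ 2 / 2) ^ 4 / (Nat.factorial 4 : ℝ) ≤ Real.exp (x ^ 2 / 2) :=
    Real.pow_div_factorial_le_exp (x ^ 2 / 2) (by positivity) 4
  have h2 : w x ≤ Real.exp (-(x ^ 2)) := by
    unfold w
    apply Real.exp_le_exp.mpr
    have : 0 ≤ x ^ 4 := by positivity
    linarith
  have h3 : Real.exp (-(x ^ 2)) = Real.exp (-(x ^ 2 / 2)) * Real.exp (-(1 / 2) * x ^ 2) := by
    rw [← Real.exp_add]
    congr 1
    ring
  have h4 : x ^ 8 ≤ 384 * Real.exp (x ^ 2 / 2) := by
    have : (Nat.factorial 4 : ℝ) = 24 := by norm_num [Nat.factorial]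
    rw [this] at h1
    nlinarith
  calc x ^ 8 * w x ≤ (384 * Real.exp (x ^ 2 / 2)) * Real.exp (-(x ^ 2)) :=
        mul_le_mul h4 h2 (w_pos x).le (by positivity)
    _ = 384 * (Real.exp (x ^ 2 / 2) * Real.exp (-(x ^ 2 / 2))) * Real.exp (-(1 / 2) * x ^ 2) := by
        rw [h3]; ring
    _ = 384 * Real.exp (-(1 / 2) * x ^ 2) := by
        rw [← Real.exp_add]
        simp

lemma w_integrable : Integrable w := by
  refine (integrable_exp_neg_mul_sq (b := 1) one_pos).mono' w_cont.aestronglyMeasurable ?_
  refine Filter.Eventually.of_forall (fun x => ?_)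
  rw [Real.norm_of_nonneg (w_pos x).le]
  unfold w
  apply Real.exp_le_exp.mpr
  have : 0 ≤ x ^ 4 := by positivity
  linarith

lemma pow8_w_integrable : Integrable (fun x => x ^ 8 * w x) := by
  refine ((integrable_exp_neg_mul_sq (b := 1 / 2) (by norm_num)).const_mul 384).mono'
    (by have := w_cont; exact (by fun_prop : Continuous fun x : ℝ => x ^ 8 * w x).aestronglyMeasurable) ?_
  refine Filter.Eventually.of_forall (fun x => ?_)
  rw [Real.norm_of_nonneg (mul_nonneg (by positivity) (w_pos x).le)]
  exact pow8_w x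

/-- The normalizing constant. -/
noncomputable def Z : ℝ := ∫ x, w x

lemma Z_pos : 0 < Z := by
  unfold Z
  rw [integral_pos_iff_support_of_nonneg (fun x => (w_pos x).le) w_integrable]
  have : Function.support w = Set.univ := by
    ext x
    simp [(w_pos x).ne']
  rw [this]
  simp

/-- The normalized weight. -/
noncomputable def g (x : ℝ) : ℝ := w x / Z

lemma g_pos (x : ℝ) : 0 < g x := div_pos (w_pos x) Z_pos
lemma g_cont : Continuous g := w_cont.div_const Z
lemma g_integrable : Integrable g := w_integrable.div_const Z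
lemma g_integral : ∫ x, g x = 1 := by
  unfold g
  rw [integral_div]
  exact div_self Z_pos.ne'

/-- The one-dimensional probability measure with density `g`. -/
noncomputable def rho : Measure ℝ := volume.withDensity (fun x => ENNReal.ofReal (g x))

instance : IsProbabilityMeasure rho := ⟨by
  unfold rho
  rw [withDensity_apply _ MeasurableSet.univ, Measure.restrict_univ,
    ← ofReal_integral_eq_lintegral_ofReal g_integrable
      (Filter.Eventually.of_forall (fun x => (g_pos x).le)), g_integral]
  simp⟩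

lemma rho_apply {s : Set ℝ} (hs : MeasurableSet s) :
    rho s = ENNReal.ofReal (∫ x, s.indicator g x) := by
  unfold rho
  rw [withDensity_apply _ hs, integral_indicator hs,
    ofReal_integral_eq_lintegral_ofReal g_integrable.integrableOn
      (Filter.Eventually.of_forall (fun x => (g_pos x).le))]

lemma memLp_pow4 : MemLp (fun x : ℝ => x ^ 4) 2 rho := by
  rw [memLp_two_iff_integrable_sq (by fun_prop)]
  unfold rho
  rw [integrable_withDensity_iff (by have := g_cont; fun_prop) (by simp)]
  have h1 : (fun x : ℝ => (x ^ 4) ^ 2 * (ENNReal.ofReal (g x)).toReal) =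
      fun x => (x ^ 8 * w x) / Z := by
    ext x
    rw [ENNReal.toReal_ofReal (g_pos x).le]
    unfold g
    ring
  rw [h1]
  exact pow8_w_integrable.div_const Z

lemma memLp_pow2 : MemLp (fun x : ℝ => x ^ 2) 2 rho := by
  have h1 : MemLp ((fun _ : ℝ => (1 : ℝ)) + fun x : ℝ => x ^ 4) 2 rho :=
    MemLp.add (memLp_const (1 : ℝ)) memLp_pow4
  refine h1.mono (by fun_prop) ?_
  refine Filter.Eventually.of_forall (fun x => ?_)
  simp only [Pi.add_apply]
  rw [Real.norm_of_nonneg (by positivity), Real.norm_of_nonneg (by positivity)]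
  nlinarith [sq_nonneg (x ^ 2 - 1), sq_nonneg x]

/-- The product measure. -/
noncomputable def PP (n : ℕ) : Measure (Fin n → ℝ) := Measure.pi (fun _ => rho)

instance (n : ℕ) : IsProbabilityMeasure (PP n) := by unfold PP; infer_instance

variable {n : ℕ}

lemma prod_g (x : Fin n → ℝ) : ∏ i, g (x i) = Real.exp (-(V x + T x)) / Z ^ n := by
  unfold g w V T
  rw [Finset.prod_div_distrib, Finset.prod_const, Finset.card_univ, Fintype.card_fin,
    ← Real.exp_sum, Finset.sum_neg_distrib, Finset.sum_add_distrib]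

lemma PP_eq : PP n = volume.withDensity (fun x => ENNReal.ofReal (∏ i, g (x i))) := by
  unfold PP
  apply Measure.pi_eq
  intro s hs
  have hmeas : MeasurableSet (Set.pi Set.univ s) := MeasurableSet.univ_pi hs
  rw [withDensity_apply _ hmeas]
  have h1 : ∀ x : Fin n → ℝ, (Set.pi Set.univ s).indicator
      (fun x => ENNReal.ofReal (∏ i, g (x i))) x =
        ENNReal.ofReal (∏ i, (s i).indicator g (x i)) := by
    intro x
    by_cases hx : x ∈ Set.pi Set.univ s
    · rw [Set.indicator_of_mem hx]
      congr 1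
      refine Finset.prod_congr rfl (fun i _ => ?_)
      rw [Set.indicator_of_mem (hx i (Set.mem_univ i))]
    · rw [Set.indicator_of_notMem hx]
      simp only [Set.mem_pi, Set.mem_univ, forall_true_left, not_forall] at hx
      obtain ⟨i, hi⟩ := hx
      rw [Finset.prod_eq_zero (Finset.mem_univ i) (Set.indicator_of_notMem hi g)]
      simp
  rw [← lintegral_indicator hmeas]
  simp_rw [h1]
  have hint : ∀ i, Integrable ((s i).indicator g) := fun i => g_integrable.indicator (hs i)
  have hnn : ∀ i x, 0 ≤ (s i).indicator g x := fun i x =>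
    Set.indicator_nonneg (fun x _ => (g_pos x).le) x
  rw [← ofReal_integral_eq_lintegral_ofReal]
  · rw [integral_fintype_prod_volume_eq_prod (fun i x => (s i).indicator g x),
      ENNReal.ofReal_prod_of_nonneg (fun i _ => integral_nonneg (hnn i))]
    exact Finset.prod_congr rfl (fun i _ => (rho_apply (hs i)).symm)
  · exact Integrable.fintype_prod (f := fun i => (s i).indicator g) hint
  · exact Filter.Eventually.of_forall (fun x => Finset.prod_nonneg (fun i _ => hnn i (x i)))

/-- Change of measure on a measurable set. -/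
lemma PP_setIntegral {s : Set (Fin n → ℝ)} (hs : MeasurableSet s) (F : (Fin n → ℝ) → ℝ) :
    ∫ x in s, F x ∂(PP n) = ∫ x in s, (∏ i, g (x i)) * F x := by
  have hc : Continuous (fun x : Fin n → ℝ => ∏ i, g (x i)) := by
    have := g_cont
    fun_prop
  rw [PP_eq, setIntegral_withDensity_eq_setIntegral_toReal_smul hc.measurable.ennreal_ofReal
    (by simp) F hs]
  refine integral_congr_ae (Filter.Eventually.of_forall (fun x => ?_))
  simp only [smul_eq_mul]
  rw [ENNReal.toReal_ofReal (Finset.prod_nonneg (fun i _ => (g_pos _).le))]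

/-! ### Chebyshev -/

lemma chebyshev (f : ℝ → ℝ) (hf : MemLp f 2 rho) (A : ℝ) (hA : 0 < A)
    (hvar : Var[f; rho] ≤ A ^ 2) (hn : 1 ≤ n) :
    PP n {x | 2 * A * Real.sqrt n ≤ |∑ i, f (x i) - n * ∫ y, f y ∂rho|} ≤
      ENNReal.ofReal (1 / 4) := by
  have hn' : (0 : ℝ) < n := by exact_mod_cast hn
  have h1 : Var[∑ i : Fin n, fun x : Fin n → ℝ => f (x i); PP n] ≤ n * A ^ 2 := by
    unfold PP
    rw [variance_sum_pi (X := fun _ : Fin n => f) (fun _ => hf)]
    simp only [Finset.sum_const, Finset.card_univ, Fintype.card_fin, nsmul_eq_mul]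
    gcongr
  have hmem : ∀ i : Fin n, MemLp (fun x : Fin n → ℝ => f (x i)) 2 (PP n) := fun i =>
    hf.comp_measurePreserving (measurePreserving_eval (fun _ : Fin n => rho) i)
  have h2 : MemLp (∑ i : Fin n, fun x : Fin n → ℝ => f (x i)) 2 (PP n) :=
    memLp_finsetSum' _ (fun i _ => hmem i)
  have h3 : ∫ x, (∑ i : Fin n, fun x : Fin n → ℝ => f (x i)) x ∂(PP n) =
      n * ∫ y, f y ∂rho := by
    simp only [Finset.sum_apply]
    rw [integral_finsetSum _ (fun i _ => (hmem i).integrable one_le_two)]
    have : ∀ i : Fin n, ∫ x : Fin n → ℝ, f (x i) ∂(PP n) = ∫ y, f y ∂rho := by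
      intro i
      unfold PP
      exact integral_comp_eval hf.aestronglyMeasurable
    simp_rw [this]
    simp
  have hc : 0 < 2 * A * Real.sqrt n := by positivity
  have h4 := meas_ge_le_variance_div_sq h2 hc
  rw [h3] at h4
  simp only [Finset.sum_apply] at h4
  refine h4.trans (ENNReal.ofReal_le_ofReal ?_)
  rw [div_le_iff₀ (by positivity)]
  have h5 : (2 * A * Real.sqrt n) ^ 2 = 4 * A ^ 2 * n := by
    rw [mul_pow, mul_pow, Real.sq_sqrt hn'.le]
    ring
  rw [h5]
  linarith

end Pool.Agent.MP_2724f6_pr
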