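import Pool.Agent.MP_2724f6_pr.Conc

/-!
Concentration, second part: the pigeonhole argument and the main estimate.
-/

namespace Pool.Agent.MP_2724f6_pr

open MeasureTheory ProbabilityTheory

/-- The mean of `x⁴`. -/
noncomputable def v4 : ℝ := ∫ y, y ^ 4 ∂rho

/-- The mean of `x²`. -/
noncomputable def t2 : ℝ := ∫ y, y ^ 2 ∂rho

lemma rho_ac : rho ≪ volume := withDensity_absolutelyContinuous _ _

lemma rho_compl_zero : rho {0}ᶜ = 1 := by
  have h1 : rho {0} = 0 := rho_ac (measure_singleton 0)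
  rw [← prob_compl_eq_zero_iff (measurableSet_singleton 0).compl, compl_compl]
  exact h1

lemma v4_pos : 0 < v4 := by
  unfold v4
  rw [integral_pos_iff_support_of_nonneg (fun x => by positivity)
    (memLp_pow4.integrable one_le_two)]
  have : Function.support (fun x : ℝ => x ^ 4) = {0}ᶜ := by
    ext x
    simp
  rw [this, rho_compl_zero]
  exact one_pos

lemma t2_pos : 0 < t2 := by
  unfold t2
  rw [integral_pos_iff_support_of_nonneg (fun x => by positivity)
    (memLp_pow2.integrable one_le_two)]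
  have : Function.support (fun x : ℝ => x ^ 2) = {0}ᶜ := by
    ext x
    simp
  rw [this, rho_compl_zero]
  exact one_pos

/-- A bound for the standard deviations. -/
noncomputable def A0 : ℝ := 1 + Var[fun x : ℝ => x ^ 4; rho] + Var[fun x : ℝ => x ^ 2; rho]

lemma A0_ge : 1 ≤ A0 := by
  unfold A0
  have h1 : 0 ≤ Var[fun x : ℝ => x ^ 4; rho] := variance_nonneg _ _
  have h2 : 0 ≤ Var[fun x : ℝ => x ^ 2; rho] := variance_nonneg _ _
  linarith

lemma var4_le : Var[fun x : ℝ => x ^ 4; rho] ≤ A0 ^ 2 := by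
  have h1 : 0 ≤ Var[fun x : ℝ => x ^ 2; rho] := variance_nonneg _ _
  have h3 := A0_ge
  have h4 : Var[fun x : ℝ => x ^ 4; rho] ≤ A0 := by
    unfold A0
    linarith
  nlinarith

lemma var2_le : Var[fun x : ℝ => x ^ 2; rho] ≤ A0 ^ 2 := by
  have h1 : 0 ≤ Var[fun x : ℝ => x ^ 4; rho] := variance_nonneg _ _
  have h3 := A0_ge
  have h4 : Var[fun x : ℝ => x ^ 2; rho] ≤ A0 := by
    unfold A0
    linarith
  nlinarith

variable {n : ℕ}

/-- The box. -/
def Box (n : ℕ) (j k : ℤ) : Set (Fin n → ℝ) := {x | ⌈V x⌉ = j ∧ ⌈T x⌉ = k}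

lemma Box_meas (j k : ℤ) : MeasurableSet (Box n j k) := by
  have h1 : Measurable (fun x : Fin n → ℝ => ⌈V x⌉) := Int.measurable_ceil.comp V_cont.measurable
  have h2 : Measurable (fun x : Fin n → ℝ => ⌈T x⌉) := Int.measurable_ceil.comp T_cont.measurable
  exact (h1 (measurableSet_singleton j)).inter (h2 (measurableSet_singleton k))

lemma card_Icc_ceil {a b D : ℝ} (hab : b - a + 2 ≤ D) (hD : 0 ≤ D) :
    ((Finset.Icc ⌈a⌉ ⌈b⌉).card : ℝ) ≤ D := by
  rw [Int.card_Icc]
  have h1 : (⌈b⌉ : ℝ) < b + 1 := Int.ceil_lt_add_one b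
  have h2 : a ≤ (⌈a⌉ : ℝ) := Int.le_ceil a
  rcases le_or_gt 0 (⌈b⌉ + 1 - ⌈a⌉) with h | h
  · have h3 : (((⌈b⌉ + 1 - ⌈a⌉).toNat : ℤ) : ℝ) = ((⌈b⌉ + 1 - ⌈a⌉ : ℤ) : ℝ) := by
      rw [Int.toNat_of_nonneg h]
    have h4 : (((⌈b⌉ + 1 - ⌈a⌉).toNat : ℕ) : ℝ) = ((⌈b⌉ + 1 - ⌈a⌉ : ℤ) : ℝ) := by
      rw [← h3]
      norm_cast
    rw [h4]
    push_cast
    linarith
  · rw [Int.toNat_of_nonpos h.le]
    simpa using hD

/-- The pigeonhole argument. -/
lemma exists_box (hn : 1 ≤ n) : ∃ j k : ℤ,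
    |(j : ℝ) - n * v4| ≤ 2 * A0 * Real.sqrt n + 1 ∧ |(k : ℝ) - n * t2| ≤ 2 * A0 * Real.sqrt n + 1 ∧
    1 / (72 * A0 ^ 2 * n) ≤ (PP n).real (Box n j k) := by
  have hn' : (1 : ℝ) ≤ n := by exact_mod_cast hn
  have hn0 : (0 : ℝ) < n := by linarith
  have hA := A0_ge
  have hA0 : (0 : ℝ) < A0 := by linarith
  have hs1 : 1 ≤ Real.sqrt n := by
    rw [Real.one_le_sqrt]
    exact hn'
  set r : ℝ := 2 * A0 * Real.sqrt n with hr
  have hr2 : 2 ≤ r := by nlinarith
  -- the good event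
  let E : Set (Fin n → ℝ) := {x | |V x - n * v4| < r ∧ |T x - n * t2| < r}
  have hc4 := chebyshev (n := n) (fun x => x ^ 4) memLp_pow4 A0 hA0 var4_le hn
  have hc2 := chebyshev (n := n) (fun x => x ^ 2) memLp_pow2 A0 hA0 var2_le hn
  have hEc : (PP n).real Eᶜ ≤ 1 / 2 := by
    have h1 : Eᶜ ⊆ {x : Fin n → ℝ | r ≤ |∑ i, (x i) ^ 4 - n * ∫ y, y ^ 4 ∂rho|} ∪
        {x : Fin n → ℝ | r ≤ |∑ i, (x i) ^ 2 - n * ∫ y, y ^ 2 ∂rho|} := by
      intro x hx
      simp only [E, Set.mem_compl_iff, Set.mem_ofPred_eq, not_and_or, not_lt] at hx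
      exact hx
    have h2 : PP n Eᶜ ≤ ENNReal.ofReal (1 / 2) := by
      refine (measure_mono h1).trans ((measure_union_le _ _).trans ?_)
      refine (add_le_add hc4 hc2).trans ?_
      rw [← ENNReal.ofReal_add (by norm_num) (by norm_num)]
      apply ENNReal.ofReal_le_ofReal
      norm_num
    exact ENNReal.toReal_le_of_le_ofReal (by norm_num) h2
  have hEmeas : MeasurableSet E := by
    have h1 : MeasurableSet {x : Fin n → ℝ | |V x - n * v4| < r} :=
      (isOpen_lt (by have := V_cont (n := n); fun_prop) continuous_const).measurableSet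
    have h2 : MeasurableSet {x : Fin n → ℝ | |T x - n * t2| < r} :=
      (isOpen_lt (by have := T_cont (n := n); fun_prop) continuous_const).measurableSet
    exact h1.inter h2
  have hE : 1 / 2 ≤ (PP n).real E := by
    have h1 := probReal_add_probReal_compl (μ := PP n) hEmeas
    linarith
  -- the finite set of boxes
  let J : Finset (ℤ × ℤ) := Finset.Icc ⌈n * v4 - r⌉ ⌈n * v4 + r⌉ ×ˢ
    Finset.Icc ⌈n * t2 - r⌉ ⌈n * t2 + r⌉
  have hJ : (J.card : ℝ) ≤ 36 * A0 ^ 2 * n := by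
    rw [Finset.card_product]
    push_cast
    have h1 : ((Finset.Icc ⌈n * v4 - r⌉ ⌈n * v4 + r⌉).card : ℝ) ≤ 3 * r :=
      card_Icc_ceil (by linarith) (by linarith)
    have h2 : ((Finset.Icc ⌈n * t2 - r⌉ ⌈n * t2 + r⌉).card : ℝ) ≤ 3 * r :=
      card_Icc_ceil (by linarith) (by linarith)
    have h3 : (3 * r) * (3 * r) = 36 * A0 ^ 2 * n := by
      rw [hr]
      have := Real.sq_sqrt hn0.le
      calc 3 * (2 * A0 * Real.sqrt n) * (3 * (2 * A0 * Real.sqrt n)) =
          36 * A0 ^ 2 * (Real.sqrt n) ^ 2 := by ring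
        _ = _ := by rw [this]
    rw [← h3]
    exact mul_le_mul h1 h2 (Nat.cast_nonneg _) (by linarith)
  have hcover : E ⊆ ⋃ p ∈ J, (E ∩ Box n p.1 p.2) := by
    intro x hx
    simp only [Set.mem_iUnion]
    refine ⟨(⌈V x⌉, ⌈T x⌉), ?_, hx, rfl, rfl⟩
    have h1 := abs_lt.mp hx.1
    have h2 := abs_lt.mp hx.2
    simp only [J, Finset.mem_product, Finset.mem_Icc]
    refine ⟨⟨Int.ceil_le_ceil ?_, Int.ceil_le_ceil ?_⟩, ⟨Int.ceil_le_ceil ?_, Int.ceil_le_ceil ?_⟩⟩
    · linarith [h1.1]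
    · linarith [h1.2]
    · linarith [h2.1]
    · linarith [h2.2]
  have hsum : (PP n).real E ≤ ∑ p ∈ J, (PP n).real (E ∩ Box n p.1 p.2) :=
    (measureReal_mono hcover (measure_ne_top _ _)).trans (measureReal_biUnion_finset_le J _)
  have hJne : J.Nonempty := by
    rw [Finset.nonempty_iff_ne_empty]
    intro h
    rw [h] at hsum
    simp only [Finset.sum_empty] at hsum
    linarith
  have hden : 0 < 72 * A0 ^ 2 * (n : ℝ) := by positivity
  have hex : ∃ p ∈ J, 1 / (72 * A0 ^ 2 * n) ≤ (PP n).real (E ∩ Box n p.1 p.2) := by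
    apply Finset.exists_le_of_sum_le hJne
    rw [Finset.sum_const, nsmul_eq_mul]
    refine le_trans ?_ (hE.trans hsum)
    calc (J.card : ℝ) * (1 / (72 * A0 ^ 2 * n)) ≤ (36 * A0 ^ 2 * n) * (1 / (72 * A0 ^ 2 * n)) := by
          gcongr
      _ = 1 / 2 := by
          field_simp
          norm_num
  obtain ⟨⟨j, k⟩, -, hjk⟩ := hex
  have hpos : 0 < (PP n).real (E ∩ Box n j k) := lt_of_lt_of_le (by positivity) hjk
  have hne : (E ∩ Box n j k).Nonempty := by
    by_contra h
    rw [Set.not_nonempty_iff_eq_empty] at h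
    rw [h] at hpos
    simp at hpos
  obtain ⟨x, ⟨hx1, hx2⟩, hx3, hx4⟩ := hne
  refine ⟨j, k, ?_, ?_, hjk.trans (measureReal_mono Set.inter_subset_right)⟩
  · have h1 := Int.le_ceil (V x)
    have h2 := Int.ceil_lt_add_one (V x)
    rw [hx3] at h1 h2
    rw [abs_lt] at hx1
    rw [abs_le]
    constructor <;> linarith [hx1.1, hx1.2]
  · have h1 := Int.le_ceil (T x)
    have h2 := Int.ceil_lt_add_one (T x)
    rw [hx4] at h1 h2
    rw [abs_lt] at hx2
    rw [abs_le]
    constructor <;> linarith [hx2.1, hx2.2]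

/-- The slack. -/
def sl (α β : ℝ) (x : Fin n → ℝ) : ℝ := (α - V x) + (β - T x)

lemma sl_cont (α β : ℝ) : Continuous (sl α β : (Fin n → ℝ) → ℝ) := by
  have h1 := V_cont (n := n)
  have h2 := T_cont (n := n)
  unfold sl
  fun_prop

lemma sl_nonneg {α β : ℝ} {x : Fin n → ℝ} (hx : x ∈ K n α β) : 0 ≤ sl α β x := by
  unfold sl
  linarith [hx.1, hx.2]

/-- The main exponential estimate. -/
lemma exp_half {j k : ℤ} (hj : 0 < j) (hk : 0 < k) (hp : 0 < (PP n).real (Box n j k)) :
    ∫ x, Real.exp (sl (j : ℝ) (k : ℝ) x / 2) ∂(U n j k) ≤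
      Real.exp 2 / (PP n).real (Box n j k) := by
  have hα : (0 : ℝ) < j := by exact_mod_cast hj
  have hβ : (0 : ℝ) < k := by exact_mod_cast hk
  set α : ℝ := (j : ℝ) with hαdef
  set β : ℝ := (k : ℝ) with hβdef
  have hKm := K_meas (n := n) α β
  have hslc := sl_cont (n := n) α β
  set c : ℝ := Real.exp (-(α + β)) / Z ^ n with hc
  have hcpos : 0 < c := div_pos (Real.exp_pos _) (pow_pos Z_pos n)
  set vol : ℝ := (volume (K n α β)).toReal with hvol
  have hvolpos : 0 < vol := ENNReal.toReal_pos (K_ne_zero hα hβ) (K_ne_top α β)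
  -- (a)
  have ha : ∫ x in K n α β, Real.exp (-(sl α β x)) ∂(PP n) = c * vol := by
    rw [PP_setIntegral hKm]
    have h1 : ∀ x : Fin n → ℝ, (∏ i, g (x i)) * Real.exp (-(sl α β x)) = c := by
      intro x
      rw [prod_g, hc, div_mul_eq_mul_div, ← Real.exp_add]
      congr 2
      unfold sl
      ring
    simp_rw [h1]
    rw [setIntegral_const, smul_eq_mul, mul_comm]
    rfl
  -- (b)
  have hb : ∫ x in K n α β, Real.exp (-(sl α β x / 2)) ∂(PP n) =
      c * ∫ x in K n α β, Real.exp (sl α β x / 2) := by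
    rw [PP_setIntegral hKm, ← integral_const_mul]
    congr 1
    ext x
    rw [prod_g, hc, div_mul_eq_mul_div, div_mul_eq_mul_div, ← Real.exp_add, ← Real.exp_add]
    congr 2
    unfold sl
    ring
  have hint : ∀ (F : (Fin n → ℝ) → ℝ), Continuous F → IntegrableOn F (K n α β) (PP n) :=
    fun F hF => hF.continuousOn.integrableOn_compact (K_compact α β)
  -- (c)
  have hc1 : ∫ x in K n α β, Real.exp (-(sl α β x / 2)) ∂(PP n) ≤ 1 := by
    calc ∫ x in K n α β, Real.exp (-(sl α β x / 2)) ∂(PP n)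
        ≤ ∫ _x in K n α β, (1 : ℝ) ∂(PP n) := by
          apply setIntegral_mono_on (hint _ (by fun_prop)) (integrableOn_const (by finiteness)) hKm
          intro x hx
          rw [← Real.exp_zero]
          apply Real.exp_le_exp.mpr
          have := sl_nonneg hx
          linarith
      _ = (PP n).real (K n α β) := by simp
      _ ≤ 1 := measureReal_le_one
  -- (d)
  have hBK : Box n j k ⊆ K n α β := by
    intro x hx
    refine ⟨?_, ?_⟩
    · have := Int.le_ceil (V x)
      rw [hx.1] at this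
      exact this
    · have := Int.le_ceil (T x)
      rw [hx.2] at this
      exact this
  have hd : Real.exp (-2) * (PP n).real (Box n j k) ≤
      ∫ x in K n α β, Real.exp (-(sl α β x)) ∂(PP n) := by
    calc Real.exp (-2) * (PP n).real (Box n j k)
        = ∫ _x in Box n j k, Real.exp (-2) ∂(PP n) := by
          rw [setIntegral_const, smul_eq_mul, mul_comm]
      _ ≤ ∫ x in Box n j k, Real.exp (-(sl α β x)) ∂(PP n) := by
          apply setIntegral_mono_on (integrableOn_const (by finiteness))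
            ((hint _ (by fun_prop)).mono_set hBK) (Box_meas j k)
          intro x hx
          apply Real.exp_le_exp.mpr
          have h1 := Int.ceil_lt_add_one (V x)
          have h2 := Int.ceil_lt_add_one (T x)
          rw [hx.1] at h1
          rw [hx.2] at h2
          unfold sl
          linarith
      _ ≤ _ := by
          apply setIntegral_mono_set (hint _ (by fun_prop))
          · exact Filter.Eventually.of_forall (fun x => (Real.exp_pos _).le)
          · exact hBK.eventuallyLE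
  rw [U_integral, ← hvol]
  rw [ha] at hd
  rw [hb] at hc1
  have he : Real.exp (-2) = (Real.exp 2)⁻¹ := Real.exp_neg 2
  rw [he] at hd
  set I : ℝ := ∫ x in K n α β, Real.exp (sl α β x / 2) with hI
  set p : ℝ := (PP n).real (Box n j k) with hpdef
  have he2 := Real.exp_pos 2
  rw [le_div_iff₀ hp]
  have h1 : p ≤ Real.exp 2 * (c * vol) := by
    have := mul_le_mul_of_nonneg_left hd he2.le
    rwa [← mul_assoc, mul_inv_cancel₀ he2.ne', one_mul] at this
  have h2 : I ≤ 1 / c := by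
    rw [le_div_iff₀ hcpos]
    linarith
  have hInn : 0 ≤ I := by
    rw [hI]
    exact integral_nonneg (fun x => (Real.exp_pos _).le)
  calc vol⁻¹ * I * p ≤ vol⁻¹ * (1 / c) * (Real.exp 2 * (c * vol)) := by
        gcongr
    _ = Real.exp 2 := by
        field_simp

/-- The second moment of the slack. -/
lemma sq_bound {j k : ℤ} (hj : 0 < j) (hk : 0 < k) (hn : 1 ≤ n)
    (hp : 1 / (72 * A0 ^ 2 * n) ≤ (PP n).real (Box n j k)) :
    ∫ x, (sl (j : ℝ) (k : ℝ) x) ^ 2 ∂(U n j k) ≤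
      (384 * 72 * A0 ^ 2 * Real.exp 2 + 1) / 2 * Real.sqrt n := by
  have hα : (0 : ℝ) < j := by exact_mod_cast hj
  have hβ : (0 : ℝ) < k := by exact_mod_cast hk
  have hn' : (1 : ℝ) ≤ n := by exact_mod_cast hn
  have hn0 : (0 : ℝ) < n := by linarith
  have hA := A0_ge
  have hs : 0 < Real.sqrt n := Real.sqrt_pos.mpr hn0
  have hden : 0 < 72 * A0 ^ 2 * (n : ℝ) := by positivity
  have hppos : 0 < (PP n).real (Box n j k) := lt_of_lt_of_le (by positivity) hp
  have h1 := exp_half hj hk hppos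
  have h2 : Real.exp 2 / (PP n).real (Box n j k) ≤ Real.exp 2 * (72 * A0 ^ 2 * n) := by
    rw [div_le_iff₀ hppos]
    have h3 : 1 ≤ (72 * A0 ^ 2 * n) * (PP n).real (Box n j k) := by
      rw [div_le_iff₀ hden] at hp
      linarith
    have he2 := Real.exp_pos 2
    nlinarith
  have hU := U_prob (n := n) hα hβ
  have hslc := sl_cont (n := n) (j : ℝ) (k : ℝ)
  have hint : ∀ (F : (Fin n → ℝ) → ℝ), Continuous F → Integrable F (U n j k) :=
    fun F hF => U_integrable hα hβ hF
  -- pointwise bound on `K`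
  have h3 : ∀ x ∈ K n (j : ℝ) (k : ℝ), (sl (j : ℝ) (k : ℝ) x) ^ 2 ≤
      (384 * Real.exp (sl (j : ℝ) (k : ℝ) x / 2) / Real.sqrt n + Real.sqrt n) / 2 := by
    intro x hx
    have hs0 := sl_nonneg hx
    set s := sl (j : ℝ) (k : ℝ) x
    have h4 : (s / 2) ^ 4 / (Nat.factorial 4 : ℝ) ≤ Real.exp (s / 2) :=
      Real.pow_div_factorial_le_exp (s / 2) (by positivity) 4
    have h5 : (Nat.factorial 4 : ℝ) = 24 := by norm_num [Nat.factorial]
    rw [h5] at h4
    have h6 : s ^ 4 ≤ 384 * Real.exp (s / 2) := by nlinarith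
    have h7 : s ^ 2 ≤ (s ^ 4 / Real.sqrt n + Real.sqrt n) / 2 := by
      have h8 : 0 ≤ (s ^ 2 - Real.sqrt n) ^ 2 / Real.sqrt n := by positivity
      have h9 : (s ^ 2 - Real.sqrt n) ^ 2 / Real.sqrt n =
          s ^ 4 / Real.sqrt n - 2 * s ^ 2 + Real.sqrt n := by
        field_simp
        ring
      rw [h9] at h8
      linarith
    refine h7.trans ?_
    gcongr
  calc ∫ x, (sl (j : ℝ) (k : ℝ) x) ^ 2 ∂(U n j k)
      ≤ ∫ x, (384 * Real.exp (sl (j : ℝ) (k : ℝ) x / 2) / Real.sqrt n + Real.sqrt n) / 2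
          ∂(U n j k) := by
        apply integral_mono_ae (hint _ (by fun_prop)) (hint _ (by fun_prop))
        filter_upwards [U_ae (n := n) (j : ℝ) (k : ℝ)] with x hx
        exact h3 x hx
    _ = (384 * (∫ x, Real.exp (sl (j : ℝ) (k : ℝ) x / 2) ∂(U n j k)) / Real.sqrt n
          + Real.sqrt n) / 2 := by
        rw [integral_div, integral_add (hint _ (by fun_prop)) (hint _ (by fun_prop)),
          integral_div, integral_const_mul]
        simp
    _ ≤ (384 * (Real.exp 2 * (72 * A0 ^ 2 * n)) / Real.sqrt n + Real.sqrt n) / 2 := by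
        gcongr
        exact h1.trans h2
    _ = (384 * 72 * A0 ^ 2 * Real.exp 2 + 1) / 2 * Real.sqrt n := by
        have h4 : (n : ℝ) / Real.sqrt n = Real.sqrt n := Real.div_sqrt
        have h5 : 384 * (Real.exp 2 * (72 * A0 ^ 2 * n)) / Real.sqrt n =
            384 * (Real.exp 2 * (72 * A0 ^ 2)) * (n / Real.sqrt n) := by ring
        rw [h5, h4]
        ring

end Pool.Agent.MP_2724f6_pr
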