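import Mathlib

/-!
Definitions for the minimal `L²` norm of homogeneous polynomials under log-concave measures with
the symmetries of the cube.
-/

namespace Pool.Agent.MP_2724f6_pr

open MeasureTheory

/-- `coeff_d(f)`: the Euclidean norm of the coefficient vector of the polynomial `f`. -/
noncomputable def coeffNorm {n : ℕ} (f : MvPolynomial (Fin n) ℝ) : ℝ :=
  Real.sqrt (∑ m ∈ f.support, (f.coeff m) ^ 2)

/-- `μ` has a density `e^{-φ}` with respect to Lebesgue measure, for a convex function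
`φ : ℝⁿ → (-∞, ∞]`. -/
def LogConcave {n : ℕ} (μ : Measure (Fin n → ℝ)) : Prop :=
  ∃ φ : (Fin n → ℝ) → EReal, (∀ x, φ x ≠ ⊥) ∧
    (∀ x y : Fin n → ℝ, ∀ a b : ℝ, 0 < a → 0 < b → a + b = 1 →
      φ (a • x + b • y) ≤ (a : EReal) * φ x + (b : EReal) * φ y) ∧
    μ = volume.withDensity (fun x => EReal.exp (-φ x))

/-- `μ` is isotropic: its first moments vanish and its second moments are `δ_{ij}`. -/
def Isotropic {n : ℕ} (μ : Measure (Fin n → ℝ)) : Prop :=
  (∀ i, Integrable (fun x => x i) μ) ∧ (∀ i j, Integrable (fun x => x i * x j) μ) ∧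
  (∀ i, ∫ x, x i ∂μ = 0) ∧ (∀ i j, ∫ x, x i * x j ∂μ = if i = j then 1 else 0)

/-- `μ` is invariant under all signed coordinate permutations. -/
def HypInvariant {n : ℕ} (μ : Measure (Fin n → ℝ)) : Prop :=
  ∀ (ε : Fin n → ℝ) (π : Equiv.Perm (Fin n)), (∀ i, ε i = 1 ∨ ε i = -1) →
    μ.map (fun x i => ε i * x (π i)) = μ

/-- The uniform probability measure on the cube `[-√3, √3]ⁿ` (the product of the uniform
probability measures on `[-√3, √3]`). -/
noncomputable def cube (n : ℕ) : Measure (Fin n → ℝ) :=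
  Measure.pi (fun _ => ProbabilityTheory.cond volume (Set.Icc (-Real.sqrt 3) (Real.sqrt 3)))

/-- `m_d(n)`: the infimum of `∫ g² dμ_cube` over the degree-`d` homogeneous `g` with
`coeff_d(g) = 1`. -/
noncomputable def m (d n : ℕ) : ℝ :=
  sInf {r : ℝ | ∃ g : MvPolynomial (Fin n) ℝ, g.IsHomogeneous d ∧ coeffNorm g = 1 ∧
    r = ∫ x, (MvPolynomial.eval x g) ^ 2 ∂(cube n)}

end Pool.Agent.MP_2724f6_pr
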