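import Pool.Agent.MP_2724f6_pr.Defs

/-!
The lower bound: `m_d(n)` is bounded below by a positive constant depending only on `d`.
-/

namespace Pool.Agent.MP_2724f6_pr

open MeasureTheory Polynomial

/-- The uniform probability measure on `[-√3, √3]`. -/
noncomputable def nu : Measure ℝ :=
  ProbabilityTheory.cond volume (Set.Icc (-Real.sqrt 3) (Real.sqrt 3))

lemma sqrt3_pos : 0 < Real.sqrt 3 := by positivity

lemma vol_pos : volume (Set.Icc (-Real.sqrt 3) (Real.sqrt 3)) ≠ 0 := by
  rw [Real.volume_Icc]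
  have := sqrt3_pos
  simp only [ne_eq, ENNReal.ofReal_eq_zero, not_le]
  linarith

lemma vol_fin : volume (Set.Icc (-Real.sqrt 3) (Real.sqrt 3)) ≠ ⊤ := by
  rw [Real.volume_Icc]
  exact ENNReal.ofReal_ne_top

instance : IsProbabilityMeasure nu :=
  ProbabilityTheory.cond_isProbabilityMeasure_of_finite vol_pos vol_fin

lemma nu_eq : nu = (volume (Set.Icc (-Real.sqrt 3) (Real.sqrt 3)))⁻¹ •
    volume.restrict (Set.Icc (-Real.sqrt 3) (Real.sqrt 3)) := rfl

lemma nu_ac : nu ≪ volume := by
  rw [nu_eq]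
  exact (Measure.absolutelyContinuous_of_le Measure.restrict_le_self).smul_left _

instance : NullSingletonClass nu := ⟨fun x => nu_ac (measure_singleton x)⟩

lemma nu_ae : ∀ᵐ x ∂nu, x ∈ Set.Icc (-Real.sqrt 3) (Real.sqrt 3) := by
  rw [nu_eq]
  exact Measure.ae_smul_measure (ae_restrict_mem measurableSet_Icc) _

lemma integrable_nu {f : ℝ → ℝ} (hf : Continuous f) : Integrable f nu := by
  rw [nu_eq]
  exact (hf.integrableOn_Icc).smul_measure (ENNReal.inv_ne_top.mpr vol_pos)

/-- The inner product of `L²(ν)` on polynomials. -/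
noncomputable def B : ℝ[X] →ₗ[ℝ] ℝ[X] →ₗ[ℝ] ℝ :=
  LinearMap.mk₂ ℝ (fun p q => ∫ x, p.eval x * q.eval x ∂nu)
    (by
      intro p p' q
      rw [← integral_add (integrable_nu (by fun_prop)) (integrable_nu (by fun_prop))]
      congr 1
      ext x
      simp [add_mul])
    (by
      intro c p q
      rw [smul_eq_mul, ← integral_const_mul]
      congr 1
      ext x
      simp [mul_assoc])
    (by
      intro p q q'
      rw [← integral_add (integrable_nu (by fun_prop)) (integrable_nu (by fun_prop))]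
      congr 1
      ext x
      simp [mul_add])
    (by
      intro c p q
      rw [smul_eq_mul, ← integral_const_mul]
      congr 1
      ext x
      simp only [eval_smul, smul_eq_mul]
      ring)

lemma B_apply (p q : ℝ[X]) : B p q = ∫ x, p.eval x * q.eval x ∂nu := rfl

lemma B_comm (p q : ℝ[X]) : B p q = B q p := by
  rw [B_apply, B_apply]
  congr 1
  ext x
  ring

lemma B_pos (p : ℝ[X]) (hp : p ≠ 0) : 0 < B p p := by
  rw [B_apply, integral_pos_iff_support_of_nonneg (fun x => mul_self_nonneg _)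
    (integrable_nu (p.continuous.mul p.continuous))]
  have h1 : (Function.support fun x => p.eval x * p.eval x)ᶜ ⊆ (p.roots.toFinset : Set ℝ) := by
    intro x hx
    simp only [Function.mem_support, Set.mem_compl_iff, not_not, mul_self_eq_zero] at hx
    simp only [Finset.mem_coe, Multiset.mem_toFinset, mem_roots', ne_eq, hp, not_false_eq_true,
      true_and, IsRoot.def]
    exact hx
  have h2 : nu (Function.support fun x => p.eval x * p.eval x)ᶜ = 0 :=
    measure_mono_null h1 ((p.roots.toFinset).finite_toSet.measure_zero _)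
  have h3 : nu (Function.support fun x => p.eval x * p.eval x) = 1 := by
    rw [← prob_compl_eq_zero_iff₀]
    · exact h2
    · apply MeasurableSet.nullMeasurableSet
      exact measurableSet_support (p.continuous.mul p.continuous).measurable
  rw [h3]
  exact one_pos

lemma exists_orth (k : ℕ) : ∃ p : ℝ[X], p.Monic ∧ p.natDegree = k ∧
    (p - X ^ k) ∈ degreeLT ℝ k ∧ ∀ q ∈ degreeLT ℝ k, B p q = 0 := by
  let W := degreeLT ℝ k
  have : FiniteDimensional ℝ W := Module.Finite.equiv (degreeLTEquiv ℝ k).symm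
  let Φ : W →ₗ[ℝ] Module.Dual ℝ W :=
    { toFun := fun r => (B (r : ℝ[X])).comp W.subtype
      map_add' := by intro r s; ext q; simp
      map_smul' := by intro c r; ext q; simp }
  have hΦ : ∀ r s : W, Φ r s = B (r : ℝ[X]) (s : ℝ[X]) := fun r s => rfl
  have hinj : Function.Injective Φ := by
    rw [← LinearMap.ker_eq_bot, LinearMap.ker_eq_bot']
    intro r hr
    by_contra hne
    have h1 : B (r : ℝ[X]) (r : ℝ[X]) = 0 := by
      rw [← hΦ, hr]
      rfl
    have h2 := B_pos (r : ℝ[X]) (fun h => hne (Subtype.ext h))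
    linarith
  have hsurj : Function.Surjective Φ :=
    (LinearMap.injective_iff_surjective_of_finrank_eq_finrank
      (Subspace.dual_finrank_eq).symm).mp hinj
  obtain ⟨r, hr⟩ := hsurj ((B (X ^ k)).comp W.subtype)
  have hdeg : (r : ℝ[X]).degree < k := mem_degreeLT.mp r.2
  refine ⟨X ^ k - (r : ℝ[X]), ?_, ?_, ?_, ?_⟩
  · apply (monic_X_pow k).sub_of_left
    rwa [degree_X_pow]
  · apply natDegree_eq_of_degree_eq_some
    rw [degree_sub_eq_left_of_degree_lt, degree_X_pow]
    rwa [degree_X_pow]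
  · have : X ^ k - (r : ℝ[X]) - X ^ k = -(r : ℝ[X]) := by ring
    rw [this]
    exact W.neg_mem r.2
  · intro q hq
    have h1 := congrArg (fun L : Module.Dual ℝ W => L ⟨q, hq⟩) hr
    have h2 : B (r : ℝ[X]) q = B (X ^ k) q := h1
    rw [map_sub, LinearMap.sub_apply, h2, sub_self]

/-- The monic orthogonal polynomials of `ν`. -/
noncomputable def P (k : ℕ) : ℝ[X] := (exists_orth k).choose

lemma P_monic (k : ℕ) : (P k).Monic := (exists_orth k).choose_spec.1
lemma P_natDegree (k : ℕ) : (P k).natDegree = k := (exists_orth k).choose_spec.2.1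
lemma P_sub (k : ℕ) : (P k - X ^ k) ∈ degreeLT ℝ k := (exists_orth k).choose_spec.2.2.1
lemma P_orth (k : ℕ) (q : ℝ[X]) (hq : q ∈ degreeLT ℝ k) : B (P k) q = 0 :=
  (exists_orth k).choose_spec.2.2.2 q hq

/-- The squared norm of `P k`. -/
noncomputable def h (k : ℕ) : ℝ := B (P k) (P k)

lemma h_pos (k : ℕ) : 0 < h k := B_pos _ (P_monic k).ne_zero

lemma B_P_P_lt {j k : ℕ} (hjk : j < k) : B (P j) (P k) = 0 := by
  rw [B_comm]
  apply P_orth
  rw [mem_degreeLT, degree_eq_natDegree (P_monic j).ne_zero, P_natDegree]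
  exact_mod_cast hjk

lemma B_P_P_ne {j k : ℕ} (hjk : j ≠ k) : B (P j) (P k) = 0 := by
  rcases lt_or_gt_of_ne hjk with h1 | h1
  · exact B_P_P_lt h1
  · rw [B_comm]
    exact B_P_P_lt h1

lemma B_X_P_lt {j k : ℕ} (hjk : j < k) : B (X ^ j) (P k) = 0 := by
  rw [B_comm]
  apply P_orth
  rw [mem_degreeLT, degree_X_pow]
  exact_mod_cast hjk

lemma B_X_P_self (k : ℕ) : B (X ^ k) (P k) = h k := by
  have h1 : (X : ℝ[X]) ^ k = P k - (P k - X ^ k) := by ring
  have h2 : B (P k - X ^ k) (P k) = 0 := by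
    rw [B_comm]
    exact P_orth k _ (P_sub k)
  rw [h1, map_sub, LinearMap.sub_apply, h2, sub_zero]
  rfl

lemma h_zero : h 0 = 1 := by
  have h1 : P 0 = 1 := (Polynomial.Monic.natDegree_eq_zero (P_monic 0)).mp (P_natDegree 0)
  unfold h
  rw [h1, B_apply]
  simp

/-! ### The product measure -/

instance (n : ℕ) : IsProbabilityMeasure (cube n) := by
  unfold cube
  have : IsProbabilityMeasure
    (ProbabilityTheory.cond volume (Set.Icc (-Real.sqrt 3) (Real.sqrt 3))) :=
    inferInstanceAs (IsProbabilityMeasure nu)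
  infer_instance

lemma cube_eq (n : ℕ) : cube n = Measure.pi (fun _ => nu) := rfl

lemma cube_ae (n : ℕ) :
    ∀ᵐ x ∂(cube n), ∀ i, x i ∈ Set.Icc (-Real.sqrt 3) (Real.sqrt 3) := by
  rw [ae_all_iff]
  intro i
  rw [cube_eq]
  exact (measurePreserving_eval (fun _ : Fin n => nu) i).quasiMeasurePreserving.ae nu_ae

lemma integrable_cube {n : ℕ} {f : (Fin n → ℝ) → ℝ} (hf : Continuous f) :
    Integrable f (cube n) := by
  have hK : IsCompact (Set.pi Set.univ (fun _ : Fin n => Set.Icc (-Real.sqrt 3) (Real.sqrt 3))) :=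
    isCompact_univ_pi (fun _ => isCompact_Icc)
  obtain ⟨C, hC⟩ := hK.exists_bound_of_continuousOn hf.continuousOn
  refine Integrable.of_bound hf.aestronglyMeasurable C ?_
  filter_upwards [cube_ae n] with x hx
  exact hC x (fun i _ => hx i)

lemma integral_prod_polys {n : ℕ} (u w : Fin n → ℝ[X]) :
    ∫ x, (∏ j, (u j).eval (x j)) * (∏ j, (w j).eval (x j)) ∂(cube n) = ∏ j, B (u j) (w j) := by
  rw [cube_eq]
  simp_rw [← Finset.prod_mul_distrib]
  rw [integral_fintype_prod_eq_prod (fun j x => (u j).eval x * (w j).eval x)]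
  rfl

/-- The product of the orthogonal polynomials. -/
noncomputable def Q {n : ℕ} (a : Fin n →₀ ℕ) (x : Fin n → ℝ) : ℝ := ∏ j, (P (a j)).eval (x j)

/-- The squared norm of `Q a`. -/
noncomputable def H {n : ℕ} (a : Fin n →₀ ℕ) : ℝ := ∏ j, h (a j)

lemma Q_cont {n : ℕ} (a : Fin n →₀ ℕ) : Continuous (Q a) := by
  unfold Q
  fun_prop

lemma exists_lt {n : ℕ} {a b : Fin n →₀ ℕ} (hab : ∑ j, a j = ∑ j, b j) (hne : a ≠ b) :
    ∃ j, a j < b j := by
  by_contra hcon
  push Not at hcon
  apply hne
  have h1 : ∀ j ∈ Finset.univ, b j = a j :=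
    (Finset.sum_eq_sum_iff_of_le (fun j _ => hcon j)).mp hab.symm
  ext j
  exact (h1 j (Finset.mem_univ j)).symm

lemma mono_Q {n : ℕ} (a b : Fin n →₀ ℕ) (hab : ∑ j, a j = ∑ j, b j) :
    ∫ x, (∏ j, (x j) ^ (a j)) * Q b x ∂(cube n) = if a = b then H b else 0 := by
  have h1 : ∀ x : Fin n → ℝ, (∏ j, (x j) ^ (a j)) * Q b x =
      (∏ j, ((X : ℝ[X]) ^ (a j)).eval (x j)) * (∏ j, (P (b j)).eval (x j)) := by
    intro x
    simp [Q]
  simp_rw [h1]
  rw [integral_prod_polys]
  split_ifs with hE
  · subst hE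
    exact Finset.prod_congr rfl (fun j _ => B_X_P_self _)
  · obtain ⟨j, hj⟩ := exists_lt hab hE
    exact Finset.prod_eq_zero (Finset.mem_univ j) (B_X_P_lt hj)

lemma Q_Q {n : ℕ} (a b : Fin n →₀ ℕ) :
    ∫ x, Q a x * Q b x ∂(cube n) = if a = b then H b else 0 := by
  unfold Q
  rw [integral_prod_polys]
  split_ifs with hE
  · subst hE
    rfl
  · have : ∃ j, a j ≠ b j := by
      by_contra hcon
      push Not at hcon
      exact hE (Finsupp.ext hcon)
    obtain ⟨j, hj⟩ := this
    exact Finset.prod_eq_zero (Finset.mem_univ j) (B_P_P_ne hj)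

/-- Bessel's inequality. -/
lemma bessel {n d : ℕ} (g : MvPolynomial (Fin n) ℝ) (hg : g.IsHomogeneous d) :
    ∑ a ∈ g.support, (g.coeff a) ^ 2 * H a ≤ ∫ x, (MvPolynomial.eval x g) ^ 2 ∂(cube n) := by
  have hdeg : ∀ a ∈ g.support, ∑ j, a j = d := by
    intro a ha
    have h1 := hg (MvPolynomial.mem_support_iff.mp ha)
    rw [← h1, Finsupp.weight_apply, Finsupp.sum_fintype]
    · simp
    · simp
  let R : (Fin n → ℝ) → ℝ := fun x => ∑ a ∈ g.support, g.coeff a * Q a x
  have hRc : Continuous R := by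
    have := fun a : Fin n →₀ ℕ => Q_cont a
    fun_prop
  have hgc : Continuous (fun x => MvPolynomial.eval x g) := MvPolynomial.continuous_eval g
  -- the mixed integral
  have h1 : ∫ x, MvPolynomial.eval x g * R x ∂(cube n) =
      ∑ a ∈ g.support, (g.coeff a) ^ 2 * H a := by
    have e1 : ∀ x : Fin n → ℝ, MvPolynomial.eval x g * R x =
        ∑ b ∈ g.support, ∑ a ∈ g.support,
          (g.coeff a * g.coeff b) * ((∏ j, (x j) ^ (a j)) * Q b x) := by
      intro x
      rw [MvPolynomial.eval_eq', Finset.sum_mul_sum, Finset.sum_comm]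
      refine Finset.sum_congr rfl (fun b _ => Finset.sum_congr rfl (fun a _ => ?_))
      ring
    simp_rw [e1]
    rw [integral_finsetSum]
    · refine Finset.sum_congr rfl (fun b hb => ?_)
      rw [integral_finsetSum]
      · rw [Finset.sum_eq_single b]
        · rw [integral_const_mul, mono_Q b b rfl, if_pos rfl]
          ring
        · intro a ha hab
          rw [integral_const_mul, mono_Q a b ((hdeg a ha).trans (hdeg b hb).symm), if_neg hab,
            mul_zero]
        · intro hb'
          exact absurd hb hb'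
      · intro a _
        apply integrable_cube
        have := Q_cont b
        fun_prop
    · intro b _
      apply integrable_cube
      have := Q_cont b
      fun_prop
  have h2 : ∫ x, R x * R x ∂(cube n) = ∑ a ∈ g.support, (g.coeff a) ^ 2 * H a := by
    have e1 : ∀ x : Fin n → ℝ, R x * R x =
        ∑ b ∈ g.support, ∑ a ∈ g.support, (g.coeff a * g.coeff b) * (Q a x * Q b x) := by
      intro x
      rw [Finset.sum_mul_sum, Finset.sum_comm]
      refine Finset.sum_congr rfl (fun b _ => Finset.sum_congr rfl (fun a _ => ?_))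
      ring
    simp_rw [e1]
    rw [integral_finsetSum]
    · refine Finset.sum_congr rfl (fun b hb => ?_)
      rw [integral_finsetSum]
      · rw [Finset.sum_eq_single b]
        · rw [integral_const_mul, Q_Q b b, if_pos rfl]
          ring
        · intro a ha hab
          rw [integral_const_mul, Q_Q a b, if_neg hab, mul_zero]
        · intro hb'
          exact absurd hb hb'
      · intro a _
        apply integrable_cube
        have := Q_cont b
        have := Q_cont a
        fun_prop
    · intro b _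
      apply integrable_cube
      have := fun a : Fin n →₀ ℕ => Q_cont a
      fun_prop
  have h3 : 0 ≤ ∫ x, (MvPolynomial.eval x g - R x) ^ 2 ∂(cube n) :=
    integral_nonneg (fun x => sq_nonneg _)
  have h4 : ∫ x, (MvPolynomial.eval x g - R x) ^ 2 ∂(cube n) =
      ∫ x, (MvPolynomial.eval x g) ^ 2 ∂(cube n) - 2 * ∫ x, MvPolynomial.eval x g * R x ∂(cube n)
        + ∫ x, R x * R x ∂(cube n) := by
    rw [← integral_const_mul, ← integral_sub, ← integral_add]
    · congr 1
      ext x
      ring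
    · exact integrable_cube (by fun_prop)
    · exact integrable_cube (by fun_prop)
    · exact integrable_cube (by fun_prop)
    · exact integrable_cube (by fun_prop)
  rw [h4, h1, h2] at h3
  linarith

/-- A positive constant bounding all the relevant norms from below. -/
lemma exists_eta (d : ℕ) : ∃ η : ℝ, 0 < η ∧ η ≤ 1 ∧ ∀ k ≤ d, η ^ k ≤ h k := by
  induction d with
  | zero =>
    refine ⟨1, one_pos, le_rfl, ?_⟩
    intro k hk
    obtain rfl : k = 0 := by omega
    rw [h_zero, pow_zero]
  | succ d ih =>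
    obtain ⟨η, h0, h1, h2⟩ := ih
    refine ⟨min η (h (d + 1)), lt_min h0 (h_pos _), (min_le_left _ _).trans h1, ?_⟩
    have hm0 : 0 ≤ min η (h (d + 1)) := (lt_min h0 (h_pos _)).le
    intro k hk
    rcases Nat.lt_or_ge d k with hk' | hk'
    · obtain rfl : k = d + 1 := by omega
      calc (min η (h (d + 1))) ^ (d + 1) ≤ (min η (h (d + 1))) ^ 1 :=
            pow_le_pow_of_le_one hm0 ((min_le_left _ _).trans h1) (by omega)
        _ ≤ h (d + 1) := by
            rw [pow_one]
            exact min_le_right _ _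
    · exact (pow_le_pow_left₀ hm0 (min_le_left _ _) k).trans (h2 k hk')

lemma H_ge {n d : ℕ} {η : ℝ} (h0 : 0 < η) (h2 : ∀ k ≤ d, η ^ k ≤ h k)
    (a : Fin n →₀ ℕ) (ha : ∑ j, a j = d) : η ^ d ≤ H a := by
  unfold H
  rw [← ha, ← Finset.prod_pow_eq_pow_sum]
  refine Finset.prod_le_prod (fun j _ => (pow_pos h0 _).le) (fun j _ => h2 _ ?_)
  rw [← ha]
  exact Finset.single_le_sum (fun j _ => Nat.zero_le (a j)) (Finset.mem_univ j)

/-- `m_d(n)` is bounded below by a positive constant depending only on `d`. -/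
theorem m_ge (d : ℕ) : ∃ c : ℝ, 0 < c ∧ ∀ n : ℕ, 1 ≤ n → c ≤ m d n := by
  obtain ⟨η, h0, -, h2⟩ := exists_eta d
  refine ⟨η ^ d, pow_pos h0 d, ?_⟩
  intro n hn
  apply le_csInf
  · -- the set is nonempty: the monomial `x_0 ^ d`
    refine ⟨_, MvPolynomial.monomial (Finsupp.single ⟨0, by omega⟩ d) 1,
      MvPolynomial.isHomogeneous_monomial _ (by simp), ?_, rfl⟩
    unfold coeffNorm
    rw [MvPolynomial.support_monomial]
    simp
  · rintro _ ⟨g, hg, hg1, rfl⟩
    refine le_trans ?_ (bessel g hg)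
    have hdeg : ∀ a ∈ g.support, ∑ j, a j = d := by
      intro a ha
      have h1 := hg (MvPolynomial.mem_support_iff.mp ha)
      rw [← h1, Finsupp.weight_apply, Finsupp.sum_fintype]
      · simp
      · simp
    have h3 : ∑ a ∈ g.support, (g.coeff a) ^ 2 = 1 := by
      unfold coeffNorm at hg1
      rw [Real.sqrt_eq_one] at hg1
      exact hg1
    calc η ^ d = ∑ a ∈ g.support, (g.coeff a) ^ 2 * η ^ d := by
          rw [← Finset.sum_mul, h3, one_mul]
      _ ≤ _ := Finset.sum_le_sum (fun a ha =>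
          mul_le_mul_of_nonneg_left (H_ge h0 h2 a (hdeg a ha)) (sq_nonneg _))

end Pool.Agent.MP_2724f6_pr
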