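import Pool.Agent.MP_2724f6_pr.Poly
import Pool.Agent.MP_2724f6_pr.Conc2
import Pool.Agent.MP_2724f6_pr.Lower

/-!
Assembly of the counterexample.
-/

namespace Pool.Agent.MP_2724f6_pr

open MeasureTheory MvPolynomial Filter

lemma eventually_sqrt (a b c : ℝ) (hc : 0 < c) :
    ∀ᶠ n : ℕ in atTop, a * Real.sqrt n + b ≤ c * n := by
  have h1 : Tendsto (fun n : ℕ => Real.sqrt n) atTop atTop :=
    Real.tendsto_sqrt_atTop.comp tendsto_natCast_atTop_atTop
  filter_upwards [h1.eventually_ge_atTop ((|a| + |b|) / c), h1.eventually_ge_atTop 1] with n hn hn1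
  have hs : Real.sqrt n * Real.sqrt n = n := Real.mul_self_sqrt (Nat.cast_nonneg n)
  rw [div_le_iff₀ hc] at hn
  have h2 : a * Real.sqrt n ≤ |a| * Real.sqrt n :=
    mul_le_mul_of_nonneg_right (le_abs_self a) (by linarith)
  have h3 : b ≤ |b| * Real.sqrt n := (le_abs_self b).trans (by nlinarith [abs_nonneg b])
  calc a * Real.sqrt n + b ≤ (|a| + |b|) * Real.sqrt n := by linarith
    _ ≤ (Real.sqrt n * c) * Real.sqrt n := mul_le_mul_of_nonneg_right hn (by linarith)
    _ = c * n := by rw [mul_right_comm, hs, mul_comm]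

/-- The constant in `sq_bound`. -/
noncomputable def C1 : ℝ := (384 * 72 * A0 ^ 2 * Real.exp 2 + 1) / 2

lemma C1_pos : 0 < C1 := by
  unfold C1
  have := Real.exp_pos 2
  positivity

/-- The estimate for the quartic factor on the body. -/
lemma quartic_bound {n : ℕ} {α β : ℝ} (hα : 0 < α) (hβ : 0 < β) {x : Fin n → ℝ}
    (hx : x ∈ K n α β) {M : ℝ} (hM1 : 1 ≤ M) (hM2 : 2 * α / β ≤ M) :
    (V x - (α / β ^ 2) * (T x) ^ 2) ^ 2 ≤ M ^ 2 * (sl α β x) ^ 2 := by
  have hV := hx.1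
  have hT := hx.2
  have hT0 := T_nonneg x
  have hV0 := V_nonneg x
  rw [← mul_pow]
  apply sq_le_sq'
  · -- lower bound
    have h1 : (α / β ^ 2) * (T x) ^ 2 ≤ α := by
      have h2 : (T x) ^ 2 ≤ β ^ 2 := pow_le_pow_left₀ hT0 hT 2
      calc (α / β ^ 2) * (T x) ^ 2 ≤ (α / β ^ 2) * β ^ 2 :=
            mul_le_mul_of_nonneg_left h2 (by positivity)
        _ = α := by field_simp
    have h3 : sl α β x ≤ M * sl α β x := le_mul_of_one_le_left (sl_nonneg hx) hM1
    unfold sl at h3 ⊢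
    linarith
  · -- upper bound
    have h1 : α - (α / β ^ 2) * (T x) ^ 2 ≤ (2 * α / β) * (β - T x) := by
      have h2 : α - (α / β ^ 2) * (T x) ^ 2 = (α / β ^ 2) * ((β - T x) * (β + T x)) := by
        field_simp
        ring
      have h3 : (2 * α / β) * (β - T x) = (α / β ^ 2) * ((β - T x) * (2 * β)) := by
        field_simp
      rw [h2, h3]
      apply mul_le_mul_of_nonneg_left _ (by positivity)
      apply mul_le_mul_of_nonneg_left _ (by linarith)
      linarith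
    have h4 : (2 * α / β) * (β - T x) ≤ M * (β - T x) :=
      mul_le_mul_of_nonneg_right hM2 (by linarith)
    have h5 : 0 ≤ M * (α - V x) := mul_nonneg (by linarith) (by linarith)
    unfold sl
    rw [mul_add]
    linarith

set_option maxHeartbeats 1000000 in
/-- The core estimate. -/
lemma core (k : ℕ) : ∃ C : ℝ, 0 < C ∧ ∀ᶠ n : ℕ in atTop,
    ∃ (μ : Measure (Fin n → ℝ)) (f : MvPolynomial (Fin n) ℝ),
      IsProbabilityMeasure μ ∧ LogConcave μ ∧ Isotropic μ ∧ HypInvariant μ ∧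
      f.IsHomogeneous (k + 4) ∧ coeffNorm f = 1 ∧ Integrable (fun x => (eval x f) ^ 2) μ ∧
      ∫ x, (eval x f) ^ 2 ∂μ ≤ C / Real.sqrt n := by
  have hv := v4_pos
  have ht := t2_pos
  have hA := A0_ge
  have hC1 := C1_pos
  set v := v4
  set t := t2
  -- the multiplier
  set M : ℝ := max 1 (6 * v / t) with hM
  have hM1 : 1 ≤ M := le_max_left _ _
  refine ⟨4 * ((4 / t) ^ (k + 4) * ((3 * t) ^ k * (M ^ 2 * C1))), by positivity, ?_⟩
  filter_upwards [eventually_sqrt (2 * A0) 1 (t / 2) (by positivity),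
    eventually_sqrt (2 * A0) 1 (v / 2) (by positivity),
    eventually_sqrt (C1 / 2) (1 / 2) (t / 4) (by positivity),
    eventually_ge_atTop 1, eventually_ge_atTop (2 * k),
    tendsto_natCast_atTop_atTop.eventually_ge_atTop (2 * (6 * v / t ^ 2))] with n h1 h2 h3 h4 h5 h6
  have hn' : (1 : ℝ) ≤ n := by exact_mod_cast h4
  have hn0 : (0 : ℝ) < n := by linarith
  have hs0 : 0 < Real.sqrt n := Real.sqrt_pos.mpr hn0
  obtain ⟨j, l, hj, hl, hbox⟩ := exists_box (n := n) h4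
  rw [abs_le] at hj hl
  -- bounds for `α = j` and `β = l`
  have hα1 : v / 2 * n ≤ (j : ℝ) := by linarith [hj.1]
  have hα2 : (j : ℝ) ≤ 3 * v / 2 * n := by linarith [hj.2]
  have hβ1 : t / 2 * n ≤ (l : ℝ) := by linarith [hl.1]
  have hβ2 : (l : ℝ) ≤ 3 * t / 2 * n := by linarith [hl.2]
  have hα : (0 : ℝ) < j := lt_of_lt_of_le (by positivity) hα1
  have hβ : (0 : ℝ) < l := lt_of_lt_of_le (by positivity) hβ1
  have hj0 : 0 < j := by exact_mod_cast hα
  have hl0 : 0 < l := by exact_mod_cast hβ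
  have hsq := sq_bound hj0 hl0 h4 hbox
  set α : ℝ := (j : ℝ) with hαdef
  set β : ℝ := (l : ℝ) with hβdef
  have hU := U_prob (n := n) hα hβ
  have hslc := sl_cont (n := n) α β
  have hVc := V_cont (n := n)
  have hTc := T_cont (n := n)
  have hint : ∀ (F : (Fin n → ℝ) → ℝ), Continuous F → Integrable F (U n α β) :=
    fun F hF => U_integrable hα hβ hF
  have hsq' : ∫ x, (sl α β x) ^ 2 ∂(U n α β) ≤ C1 * Real.sqrt n := hsq
  -- the second moment
  set τ : ℝ := (∫ x, T x ∂(U n α β)) / n with hτ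
  have hτ1 : t / 4 ≤ τ := by
    rw [hτ, le_div_iff₀ hn0]
    have h7 : ∫ x, (β - T x) ∂(U n α β) ≤ ∫ x, ((sl α β x) ^ 2 + 1) / 2 ∂(U n α β) := by
      apply integral_mono_ae (hint _ (by fun_prop)) (hint _ (by fun_prop))
      filter_upwards [U_ae (n := n) α β] with x hx
      have h8 : β - T x ≤ sl α β x := by
        unfold sl
        linarith [hx.1]
      have h9 := sq_nonneg (sl α β x - 1)
      have h10 : (sl α β x - 1) ^ 2 = (sl α β x) ^ 2 - 2 * sl α β x + 1 := by ring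
      linarith only [h8, h9, h10]
    have h8 : ∫ x, (β - T x) ∂(U n α β) = β - ∫ x, T x ∂(U n α β) := by
      rw [integral_sub (hint _ (by fun_prop)) (hint _ (by fun_prop))]
      simp
    have h9 : ∫ x, ((sl α β x) ^ 2 + 1) / 2 ∂(U n α β) =
        (∫ x, (sl α β x) ^ 2 ∂(U n α β) + 1) / 2 := by
      rw [integral_div, integral_add (hint _ (by fun_prop)) (hint _ (by fun_prop))]
      simp
    rw [h8, h9] at h7
    linarith
  have hτ0 : 0 < τ := by linarith
  -- the scaling factor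
  set c : ℝ := (Real.sqrt τ)⁻¹ with hc
  have hc0 : 0 < c := by rw [hc]; exact inv_pos.mpr (Real.sqrt_pos.mpr hτ0)
  have hc2 : c ^ 2 = τ⁻¹ := by
    rw [hc, inv_pow, Real.sq_sqrt hτ0.le]
  have hc2' : c ^ 2 ≤ 4 / t := by
    rw [hc2, inv_le_comm₀ hτ0 (by positivity), inv_div]
    exact hτ1
  have hmap := U_map_smul (n := n) (α := α) (β := β) hc0
  have hα' : 0 < c ^ 4 * α := by positivity
  have hβ' : 0 < c ^ 2 * β := by positivity
  have hmapint : ∀ (F : (Fin n → ℝ) → ℝ), Continuous F →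
      ∫ x, F x ∂(U n (c ^ 4 * α) (c ^ 2 * β)) = ∫ x, F (c • x) ∂(U n α β) := by
    intro F hF
    rw [← hmap, integral_map (measurable_const_smul c).aemeasurable hF.aestronglyMeasurable]
  have hTn : ∫ x, T x ∂(U n (c ^ 4 * α) (c ^ 2 * β)) = n := by
    rw [hmapint _ hTc]
    simp_rw [T_smul]
    rw [integral_const_mul, hc2]
    have : ∫ x, T x ∂(U n α β) = τ * n := by
      rw [hτ]
      field_simp
    rw [this]
    field_simp
  -- the polynomial
  have hk : k ≤ n := by omega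
  set q : ℝ := α / β ^ 2 with hq
  set f := Fk n k hk q with hf
  have hfcont : Continuous (fun x => eval x f) := MvPolynomial.continuous_eval f
  -- `q` is small
  have hq1 : q ≤ 1 / 2 := by
    rw [hq, div_le_iff₀ (by positivity)]
    have e1 : (t / 2 * n) ^ 2 ≤ β ^ 2 := pow_le_pow_left₀ (by positivity) hβ1 2
    have e2 : 2 * (6 * v / t ^ 2) * t ^ 2 ≤ n * t ^ 2 :=
      mul_le_mul_of_nonneg_right h6 (by positivity)
    have e3 : 2 * (6 * v / t ^ 2) * t ^ 2 = 12 * v := by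
      field_simp
      norm_num
    rw [e3] at e2
    have e4 : 12 * v * n ≤ n * t ^ 2 * n := mul_le_mul_of_nonneg_right e2 hn0.le
    have e5 : (t / 2 * n) ^ 2 = n * t ^ 2 * n / 4 := by ring
    rw [e5] at e1
    linarith only [e1, e4, hα2]
  have hq0 : 0 ≤ q := by positivity
  have hnorm : (n : ℝ) / 4 ≤ (coeffNorm f) ^ 2 := by
    have e1 := coeffNorm_Fk k hk q
    have e2 : (1 / 4 : ℝ) ≤ (1 - q) ^ 2 := by
      have e3 : (1 / 2 : ℝ) ≤ 1 - q := by linarith only [hq1]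
      calc (1 / 4 : ℝ) = (1 / 2) ^ 2 := by norm_num
        _ ≤ (1 - q) ^ 2 := pow_le_pow_left₀ (by norm_num) e3 2
    calc (n : ℝ) / 4 = n * (1 / 4) := by ring
      _ ≤ n * (1 - q) ^ 2 := mul_le_mul_of_nonneg_left e2 hn0.le
      _ ≤ _ := e1
  have hnn : 0 ≤ coeffNorm f := Real.sqrt_nonneg _
  have hnpos : 0 < coeffNorm f := by
    rcases hnn.lt_or_eq with h | h
    · exact h
    · rw [← h] at hnorm
      have : (0 : ℝ) < n / 4 := by positivity
      have e0 : (0 : ℝ) ^ 2 = 0 := by norm_num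
      rw [e0] at hnorm
      linarith only [this, hnorm]
  -- the integral of the square
  have hM2 : 2 * α / β ≤ M := by
    refine le_trans ?_ (le_max_right _ _)
    rw [div_le_div_iff₀ hβ ht]
    have e1 : 2 * α * t ≤ 2 * (3 * v / 2 * n) * t := by gcongr
    have e2 : 6 * v * (t / 2 * n) ≤ 6 * v * β := by gcongr
    linarith
  have hquart : ∫ x, (V x - q * (T x) ^ 2) ^ 2 ∂(U n α β) ≤ M ^ 2 * (C1 * Real.sqrt n) := by
    calc ∫ x, (V x - q * (T x) ^ 2) ^ 2 ∂(U n α β)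
        ≤ ∫ x, M ^ 2 * (sl α β x) ^ 2 ∂(U n α β) := by
          apply integral_mono_ae (hint _ (by fun_prop)) (hint _ (by fun_prop))
          filter_upwards [U_ae (n := n) α β] with x hx
          exact quartic_bound hα hβ hx hM1 hM2
      _ = M ^ 2 * ∫ x, (sl α β x) ^ 2 ∂(U n α β) := integral_const_mul _ _
      _ ≤ _ := mul_le_mul_of_nonneg_left hsq' (by positivity)
  have hsym : ∫ x, (eval x f) ^ 2 ∂(U n α β) ≤ (3 * t) ^ k * (M ^ 2 * (C1 * Real.sqrt n)) := by
    have e1 : ∀ x : Fin n → ℝ, (eval x f) ^ 2 =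
        (∏ j : Fin k, (x (Fin.castLE hk j)) ^ 2) * (V x - q * (T x) ^ 2) ^ 2 := by
      intro x
      rw [hf, eval_Fk, mul_pow, Finset.prod_pow]
    simp_rw [e1]
    have e2 := sym_bound hα hβ (F := fun x => (V x - q * (T x) ^ 2) ^ 2) (by fun_prop)
      (fun x => sq_nonneg _)
      (fun π x => by
        simp only [V_act π (fun _ => Or.inl rfl) x, T_act π (fun _ => Or.inl rfl) x]) k hk
    set I1 := ∫ x, (∏ j : Fin k, (x (Fin.castLE hk j)) ^ 2) * (V x - q * (T x) ^ 2) ^ 2 ∂(U n α β)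
    set I2 := ∫ x, (V x - q * (T x) ^ 2) ^ 2 ∂(U n α β) with hI2
    have hI2nn : 0 ≤ I2 := integral_nonneg (fun x => sq_nonneg _)
    have e3 : ((n : ℝ) / 2) ^ k ≤ (n.descFactorial k : ℝ) := by
      have e4 : (n + 1 - k) ^ k ≤ n.descFactorial k := Nat.pow_sub_le_descFactorial n k
      have e5 : ((n : ℝ) / 2) ≤ ((n + 1 - k : ℕ) : ℝ) := by
        rw [Nat.cast_sub (by omega)]
        push_cast
        have : (2 * k : ℝ) ≤ n := by exact_mod_cast h5
        linarith
      calc ((n : ℝ) / 2) ^ k ≤ ((n + 1 - k : ℕ) : ℝ) ^ k :=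
            pow_le_pow_left₀ (by positivity) e5 k
        _ ≤ (n.descFactorial k : ℝ) := by exact_mod_cast e4
    have e6 : ((n : ℝ) / 2) ^ k * I1 ≤ ((n : ℝ) / 2) ^ k * ((3 * t) ^ k * I2) := by
      have hI1nn : 0 ≤ I1 := integral_nonneg (fun x =>
        mul_nonneg (Finset.prod_nonneg (fun j _ => sq_nonneg _)) (sq_nonneg _))
      calc ((n : ℝ) / 2) ^ k * I1 ≤ (n.descFactorial k : ℝ) * I1 :=
            mul_le_mul_of_nonneg_right e3 hI1nn
        _ ≤ β ^ k * I2 := e2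
        _ ≤ (3 * t / 2 * n) ^ k * I2 := by gcongr
        _ = ((n : ℝ) / 2) ^ k * ((3 * t) ^ k * I2) := by
            rw [← mul_assoc, ← mul_pow]
            congr 2
            ring
    have e7 : I1 ≤ (3 * t) ^ k * I2 := le_of_mul_le_mul_left e6 (by positivity)
    refine e7.trans ?_
    gcongr
  have hscale : ∫ x, (eval x f) ^ 2 ∂(U n (c ^ 4 * α) (c ^ 2 * β)) ≤
      (4 / t) ^ (k + 4) * ((3 * t) ^ k * (M ^ 2 * (C1 * Real.sqrt n))) := by
    rw [hmapint _ (by fun_prop)]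
    have e1 : ∀ x : Fin n → ℝ, (eval (c • x) f) ^ 2 = (c ^ 2) ^ (k + 4) * (eval x f) ^ 2 := by
      intro x
      rw [hf, eval_Fk, eval_Fk, V_smul, T_smul]
      simp only [Pi.smul_apply, smul_eq_mul]
      rw [Finset.prod_mul_distrib, Finset.prod_const, Finset.card_univ, Fintype.card_fin]
      ring
    simp_rw [e1]
    rw [integral_const_mul]
    have hInn : 0 ≤ ∫ x, (eval x f) ^ 2 ∂(U n α β) := integral_nonneg (fun x => sq_nonneg _)
    exact mul_le_mul (pow_le_pow_left₀ (by positivity) hc2' _) hsym hInn (by positivity)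
  -- conclusion
  refine ⟨U n (c ^ 4 * α) (c ^ 2 * β), (coeffNorm f)⁻¹ • f, U_prob hα' hβ', U_logConcave hα' hβ',
    isotropic_of hα' hβ' h4 hTn, U_invariant _ _, ?_, ?_, ?_, ?_⟩
  · rw [MvPolynomial.smul_eq_C_mul]
    have e1 := (isHomogeneous_C (Fin n) (coeffNorm f)⁻¹).mul (Fk_hom k hk q)
    rwa [zero_add] at e1
  · rw [coeffNorm_smul f (inv_pos.mpr hnpos), inv_mul_cancel₀ hnpos.ne']
  · have := MvPolynomial.continuous_eval ((coeffNorm f)⁻¹ • f)
    exact U_integrable hα' hβ' (by fun_prop)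
  · have e1 : ∀ x : Fin n → ℝ, (eval x ((coeffNorm f)⁻¹ • f)) ^ 2 =
        ((coeffNorm f) ^ 2)⁻¹ * (eval x f) ^ 2 := by
      intro x
      rw [smul_eval, mul_pow, inv_pow]
    simp_rw [e1]
    rw [integral_const_mul]
    have e2 : ((coeffNorm f) ^ 2)⁻¹ ≤ ((n : ℝ) / 4)⁻¹ :=
      inv_anti₀ (by positivity) hnorm
    have hInn : 0 ≤ ∫ x, (eval x f) ^ 2 ∂(U n (c ^ 4 * α) (c ^ 2 * β)) :=
      integral_nonneg (fun x => sq_nonneg _)
    calc ((coeffNorm f) ^ 2)⁻¹ * ∫ x, (eval x f) ^ 2 ∂(U n (c ^ 4 * α) (c ^ 2 * β))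
        ≤ ((n : ℝ) / 4)⁻¹ * ((4 / t) ^ (k + 4) * ((3 * t) ^ k * (M ^ 2 * (C1 * Real.sqrt n)))) :=
          mul_le_mul e2 hscale hInn (by positivity)
      _ = 4 * ((4 / t) ^ (k + 4) * ((3 * t) ^ k * (M ^ 2 * C1))) * (Real.sqrt n / n) := by
          field_simp
      _ = 4 * ((4 / t) ^ (k + 4) * ((3 * t) ^ k * (M ^ 2 * C1))) / Real.sqrt n := by
          rw [Real.sqrt_div_self']
          ring

end Pool.Agent.MP_2724f6_pr
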