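import Pool.Agent.MP_2724f6_pr.Body

/-!
The test polynomials `x_1 ⋯ x_k (∑ xᵢ⁴ - (κ/n) (∑ xᵢ²)²)` and facts about invariant measures.
-/

namespace Pool.Agent.MP_2724f6_pr

open MeasureTheory MvPolynomial

variable {n : ℕ}

/-- The quartic polynomial `∑ xᵢ⁴ - q (∑ xᵢ²)²`. -/
noncomputable def F4 (n : ℕ) (q : ℝ) : MvPolynomial (Fin n) ℝ :=
  ∑ i, X i ^ 4 - q • (∑ i, X i ^ 2) ^ 2

/-- The exponent of the product of the first `k` variables. -/
noncomputable def ex (n k : ℕ) (hk : k ≤ n) : Fin n →₀ ℕ :=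
  ∑ j : Fin k, Finsupp.single (Fin.castLE hk j) 1

/-- The polynomial of degree `k + 4`. -/
noncomputable def Fk (n k : ℕ) (hk : k ≤ n) (q : ℝ) : MvPolynomial (Fin n) ℝ :=
  monomial (ex n k hk) 1 * F4 n q

lemma eval_F4 (q : ℝ) (x : Fin n → ℝ) : eval x (F4 n q) = V x - q * (T x) ^ 2 := by
  unfold F4 V T
  simp [smul_eval]

lemma eval_Fk (k : ℕ) (hk : k ≤ n) (q : ℝ) (x : Fin n → ℝ) :
    eval x (Fk n k hk q) = (∏ j : Fin k, x (Fin.castLE hk j)) * (V x - q * (T x) ^ 2) := by
  unfold Fk ex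
  rw [monomial_sum_one, map_mul, eval_F4, map_prod]
  congr 1
  refine Finset.prod_congr rfl (fun j _ => ?_)
  exact eval_X _

lemma F4_hom (q : ℝ) : (F4 n q).IsHomogeneous 4 := by
  unfold F4
  apply IsHomogeneous.sub
  · apply IsHomogeneous.sum
    intro i _
    exact isHomogeneous_X_pow i 4
  · have h2 : (∑ i : Fin n, (X i : MvPolynomial (Fin n) ℝ) ^ 2).IsHomogeneous 2 := by
      apply IsHomogeneous.sum
      intro i _
      exact isHomogeneous_X_pow i 2
    have h3 := h2.pow 2
    rw [MvPolynomial.smul_eq_C_mul]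
    have h4 := (isHomogeneous_C (Fin n) q).mul h3
    simpa using h4

lemma Fk_hom (k : ℕ) (hk : k ≤ n) (q : ℝ) : (Fk n k hk q).IsHomogeneous (k + 4) := by
  unfold Fk
  apply IsHomogeneous.mul _ (F4_hom q)
  unfold ex
  rw [monomial_sum_one]
  have h1 : (∏ j : Fin k, (monomial (Finsupp.single (Fin.castLE hk j) 1) (1 : ℝ))).IsHomogeneous
      (∑ _j : Fin k, 1) := by
    apply IsHomogeneous.prod
    intro j _
    exact isHomogeneous_X ℝ _
  simpa using h1

lemma coeff_F4 (q : ℝ) (i : Fin n) : coeff (Finsupp.single i 4) (F4 n q) = 1 - q := by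
  classical
  unfold F4
  rw [coeff_sub, coeff_smul, coeff_sum]
  have h1 : ∑ j : Fin n, coeff (Finsupp.single i 4) ((X j : MvPolynomial (Fin n) ℝ) ^ 4) = 1 := by
    rw [Finset.sum_eq_single i]
    · rw [X_pow_eq_monomial, coeff_monomial, if_pos rfl]
    · intro j _ hj
      rw [X_pow_eq_monomial, coeff_monomial, if_neg]
      intro h
      exact hj ((Finsupp.single_left_inj (by norm_num)).mp h)
    · intro h
      exact absurd (Finset.mem_univ i) h
  have h2 : coeff (Finsupp.single i 4) ((∑ j : Fin n, (X j : MvPolynomial (Fin n) ℝ) ^ 2) ^ 2)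
      = 1 := by
    rw [pow_two, Finset.sum_mul_sum, coeff_sum, Finset.sum_eq_single i]
    · rw [coeff_sum, Finset.sum_eq_single i]
      · rw [← pow_add, X_pow_eq_monomial, coeff_monomial, if_pos rfl]
      · intro l _ hl
        rw [X_pow_eq_monomial, X_pow_eq_monomial, monomial_mul, coeff_monomial, if_neg]
        intro h
        have h3 := DFunLike.congr_fun h l
        simp [Finsupp.single_apply, Ne.symm hl] at h3
      · intro h
        exact absurd (Finset.mem_univ i) h
    · intro j _ hj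
      rw [coeff_sum]
      apply Finset.sum_eq_zero
      intro l _
      rw [X_pow_eq_monomial, X_pow_eq_monomial, monomial_mul, coeff_monomial, if_neg]
      intro h
      have h3 := DFunLike.congr_fun h j
      simp [Finsupp.single_apply, Ne.symm hj] at h3
    · intro h
      exact absurd (Finset.mem_univ i) h
  rw [h1, h2]
  simp

lemma coeff_Fk (k : ℕ) (hk : k ≤ n) (q : ℝ) (i : Fin n) :
    coeff (ex n k hk + Finsupp.single i 4) (Fk n k hk q) = 1 - q := by
  unfold Fk
  rw [coeff_monomial_mul, coeff_F4, one_mul]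

lemma coeffNorm_sq (f : MvPolynomial (Fin n) ℝ) :
    (coeffNorm f) ^ 2 = ∑ a ∈ f.support, (f.coeff a) ^ 2 := by
  unfold coeffNorm
  exact Real.sq_sqrt (Finset.sum_nonneg (fun _ _ => sq_nonneg _))

lemma coeffNorm_Fk (k : ℕ) (hk : k ≤ n) (q : ℝ) :
    n * (1 - q) ^ 2 ≤ (coeffNorm (Fk n k hk q)) ^ 2 := by
  classical
  rw [coeffNorm_sq]
  set f := Fk n k hk q with hf
  let φ : Fin n → (Fin n →₀ ℕ) := fun i => ex n k hk + Finsupp.single i 4
  have hφ : Function.Injective φ := by
    intro i j hij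
    have h1 : Finsupp.single i 4 = Finsupp.single j 4 := add_left_cancel hij
    exact (Finsupp.single_left_inj (by norm_num)).mp h1
  have h1 : ∑ a ∈ Finset.univ.image φ, (f.coeff a) ^ 2 = n * (1 - q) ^ 2 := by
    rw [Finset.sum_image (fun i _ j _ hij => hφ hij)]
    have : ∀ i : Fin n, (f.coeff (φ i)) ^ 2 = (1 - q) ^ 2 := fun i => by
      rw [hf, coeff_Fk]
    simp_rw [this]
    simp
  rw [← h1, ← Finset.sum_filter_of_ne (p := fun a => a ∈ f.support)
    (s := Finset.univ.image φ) (f := fun a => (f.coeff a) ^ 2)]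
  · apply Finset.sum_le_sum_of_subset_of_nonneg
    · intro a ha
      exact (Finset.mem_filter.mp ha).2
    · intro a _ _
      exact sq_nonneg _
  · intro a _ ha
    rw [mem_support_iff]
    intro h
    apply ha
    rw [h]
    ring

lemma coeffNorm_smul (f : MvPolynomial (Fin n) ℝ) {a : ℝ} (ha : 0 < a) :
    coeffNorm (a • f) = a * coeffNorm f := by
  unfold coeffNorm
  rw [support_smul_eq ha.ne']
  simp_rw [coeff_smul, smul_eq_mul, mul_pow]
  rw [← Finset.mul_sum, Real.sqrt_mul (by positivity), Real.sqrt_sq ha.le]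

/-! ### Invariant measures -/

lemma inv_integral {μ : Measure (Fin n → ℝ)} (h : HypInvariant μ) {ε : Fin n → ℝ}
    (π : Equiv.Perm (Fin n)) (hε : ∀ i, ε i = 1 ∨ ε i = -1) {F : (Fin n → ℝ) → ℝ}
    (hF : Continuous F) : ∫ x, F (act ε π x) ∂μ = ∫ x, F x ∂μ := by
  have h1 : μ.map (act ε π) = μ := h ε π hε
  conv_rhs => rw [← h1]
  rw [integral_map (act_cont ε π).measurable.aemeasurable hF.aestronglyMeasurable]

lemma isotropic_of {α β : ℝ} (hα : 0 < α) (hβ : 0 < β) (hn : 1 ≤ n)
    (hT : ∫ x, T x ∂(U n α β) = n) : Isotropic (U n α β) := by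
  classical
  have hn' : (n : ℝ) ≠ 0 := by
    have : (1 : ℝ) ≤ n := by exact_mod_cast hn
    linarith
  have hinv := U_invariant (n := n) α β
  refine ⟨fun i => U_integrable hα hβ (by fun_prop),
    fun i j => U_integrable hα hβ (by fun_prop), ?_, ?_⟩
  · intro i
    have h1 := inv_integral hinv (ε := fun _ => -1) (Equiv.refl _) (fun _ => Or.inr rfl)
      (F := fun x => x i) (by fun_prop)
    simp only [act, Equiv.refl_apply, neg_mul, one_mul, integral_neg] at h1
    linarith
  · intro i j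
    by_cases hij : i = j
    · subst hij
      rw [if_pos rfl]
      have h1 : ∀ l, ∫ x, x l * x l ∂(U n α β) = ∫ x, x i * x i ∂(U n α β) := by
        intro l
        have h2 := inv_integral hinv (ε := fun _ => 1) (Equiv.swap l i) (fun _ => Or.inl rfl)
          (F := fun x => x l * x l) (by fun_prop)
        simp only [act, one_mul, Equiv.swap_apply_left] at h2
        exact h2.symm
      have h2 : ∫ x, T x ∂(U n α β) = ∑ l : Fin n, ∫ x, x l * x l ∂(U n α β) := by
        unfold T
        rw [integral_finsetSum _ (fun l _ => U_integrable hα hβ (by fun_prop))]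
        refine Finset.sum_congr rfl (fun l _ => ?_)
        congr 1
        ext x
        ring
      rw [hT] at h2
      simp_rw [h1] at h2
      rw [Finset.sum_const, Finset.card_univ, Fintype.card_fin, nsmul_eq_mul] at h2
      have h3 : (n : ℝ) * ∫ x, x i * x i ∂(U n α β) = n * 1 := by rw [← h2, mul_one]
      exact mul_left_cancel₀ hn' h3
    · rw [if_neg hij]
      have h1 := inv_integral hinv (ε := fun l => if l = i then -1 else 1) (Equiv.refl _)
        (fun l => by
          by_cases h : l = i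
          · right; rw [if_pos h]
          · left; rw [if_neg h])
        (F := fun x => x i * x j) (by fun_prop)
      simp only [act, Equiv.refl_apply, if_true, if_neg (Ne.symm hij), neg_mul, one_mul,
        integral_neg] at h1
      linarith

/-- Symmetrization. -/
lemma sym_bound {α β : ℝ} (hα : 0 < α) (hβ : 0 < β) {F : (Fin n → ℝ) → ℝ} (hFc : Continuous F)
    (hF0 : ∀ x, 0 ≤ F x) (hFs : ∀ (π : Equiv.Perm (Fin n)) x, F (act (fun _ => 1) π x) = F x)
    (k : ℕ) (hk : k ≤ n) :
    (n.descFactorial k : ℝ) * ∫ x, (∏ j : Fin k, (x (Fin.castLE hk j)) ^ 2) * F x ∂(U n α β) ≤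
      β ^ k * ∫ x, F x ∂(U n α β) := by
  classical
  have hinv := U_invariant (n := n) α β
  have hint : ∀ (F : (Fin n → ℝ) → ℝ), Continuous F → Integrable F (U n α β) :=
    fun F hF => U_integrable hα hβ hF
  let e0 : Fin k ↪ Fin n := Fin.castLEEmb hk
  -- all embeddings give the same integral
  have h1 : ∀ e : Fin k ↪ Fin n, ∫ x, (∏ j : Fin k, (x (e j)) ^ 2) * F x ∂(U n α β) =
      ∫ x, (∏ j : Fin k, (x (Fin.castLE hk j)) ^ 2) * F x ∂(U n α β) := by
    intro e
    have := Equiv.Perm.isMultiplyPretransitive (Fin n) k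
    obtain ⟨π, hπ⟩ := MulAction.exists_smul_eq (Equiv.Perm (Fin n)) e0 e
    have hπ' : ∀ j, π (Fin.castLE hk j) = e j := fun j => by
      rw [← hπ]
      rfl
    have h2 := inv_integral hinv (ε := fun _ => 1) π (fun _ => Or.inl rfl)
      (F := fun x => (∏ j : Fin k, (x (Fin.castLE hk j)) ^ 2) * F x) (by fun_prop)
    simp_rw [hFs] at h2
    rw [← h2]
    congr 1
    ext x
    congr 1
    refine Finset.prod_congr rfl (fun j _ => ?_)
    simp only [act, one_mul, hπ']
  have h2 : (n.descFactorial k : ℝ) *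
      ∫ x, (∏ j : Fin k, (x (Fin.castLE hk j)) ^ 2) * F x ∂(U n α β) =
      ∫ x, (∑ e : Fin k ↪ Fin n, ∏ j : Fin k, (x (e j)) ^ 2) * F x ∂(U n α β) := by
    simp_rw [Finset.sum_mul]
    rw [integral_finsetSum _ (fun e _ => hint _ (by fun_prop))]
    simp_rw [h1]
    rw [Finset.sum_const, Finset.card_univ, Fintype.card_embedding_eq, Fintype.card_fin,
      Fintype.card_fin, nsmul_eq_mul]
  rw [h2, ← integral_const_mul]
  apply integral_mono_ae (hint _ (by fun_prop)) (hint _ (by fun_prop))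
  filter_upwards [U_ae (n := n) α β] with x hx
  apply mul_le_mul_of_nonneg_right _ (hF0 x)
  let φ : (Fin k ↪ Fin n) ↪ (Fin k → Fin n) :=
    ⟨fun e : Fin k ↪ Fin n => (fun j => e j), fun e e' h => DFunLike.ext _ _ (congrFun h)⟩
  calc ∑ e : Fin k ↪ Fin n, ∏ j : Fin k, (x (e j)) ^ 2
      = ∑ f ∈ (Finset.univ : Finset (Fin k ↪ Fin n)).map φ, ∏ j : Fin k, (x (f j)) ^ 2 := by
        rw [Finset.sum_map]
        rfl
    _ ≤ ∑ f : Fin k → Fin n, ∏ j : Fin k, (x (f j)) ^ 2 := by
        apply Finset.sum_le_sum_of_subset_of_nonneg (Finset.subset_univ _)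
        intro f _ _
        exact Finset.prod_nonneg (fun j _ => sq_nonneg _)
    _ = (T x) ^ k := by
        unfold T
        rw [Fintype.sum_pow]
    _ ≤ β ^ k := pow_le_pow_left₀ (T_nonneg x) hx.2 k

end Pool.Agent.MP_2724f6_pr
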